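import Pool.Agent.Work.MP_fc775b_ag.Forms

/-!
Kaehler forms and families of forms on valuation rings, in terms of short definitions.
-/

open scoped TensorProduct

namespace ValForms

universe u

noncomputable section

section
variable (S M : Type u) [CommRing S] [AddCommGroup M] [Module S M] (p : ℕ)

/-- The `p`-th exterior power of the `S`-module `M`. -/
def Ext : Type u := ⋀[S]^p M

instance Ext.instAddCommGroup : AddCommGroup (Ext S M p) :=
  (inferInstance : AddCommGroup (⋀[S]^p M))

instance Ext.instModule : Module S (Ext S M p) := (inferInstance : Module S (⋀[S]^p M))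

variable {M p} in
/-- The element `v₁ ∧ ... ∧ v_p`. -/
def Ext.wedge (v : Fin p → M) : Ext S M p := exteriorPower.ιMulti S p v

end

section
variable (F S : Type u) [CommRing F] [CommRing S] [Algebra F S]

/-- The `S`-module `Ω[S⁄F]` of Kaehler differentials of `S` over `F`. -/
def Diff : Type u := Ω[S⁄F]

instance Diff.instAddCommGroup : AddCommGroup (Diff F S) := (inferInstance : AddCommGroup Ω[S⁄F])

instance Diff.instModule : Module S (Diff F S) := (inferInstance : Module S Ω[S⁄F])

variable {S} in
/-- The differential `d b`. -/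
def Diff.d (b : S) : Diff F S := KaehlerDifferential.D F S b

/-- The Kaehler `p`-forms of `S` over `F`. -/
abbrev Form (p : ℕ) : Type u := Ext S (Diff F S) p

variable {S} in
/-- The form `c db₁ ∧ ... ∧ db_p`. -/
def Form.mk {p : ℕ} (c : S) (b : Fin p → S) : Form F S p :=
  c • Ext.wedge S (fun i => Diff.d F (b i))

end

section
variable {F : Type u} [CommRing F] {S T U : Type u} [CommRing S] [Algebra F S] [CommRing T]
  [Algebra F T] [CommRing U] [Algebra F U]

theorem exists_pull (ψ : S →ₐ[F] T) (p : ℕ) : ∃ f : Form F S p →+ Form F T p,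
    ∀ (c : S) (b : Fin p → S), f (Form.mk F c b) = Form.mk F (ψ c) (fun i => ψ (b i)) :=
  ⟨CdhForms.pull ψ p, fun c b => CdhForms.pull_gen ψ c b⟩

/-- Pull back of `p`-forms along `ψ : S → T`: the additive map
`c db₁ ∧ ... ∧ db_p ↦ ψ(c) dψ(b₁) ∧ ... ∧ dψ(b_p)`. -/
def pull (ψ : S →ₐ[F] T) (p : ℕ) : Form F S p →+ Form F T p := Classical.choose (exists_pull ψ p)

theorem pull_mk (ψ : S →ₐ[F] T) {p : ℕ} (c : S) (b : Fin p → S) :
    pull ψ p (Form.mk F c b) = Form.mk F (ψ c) (fun i => ψ (b i)) :=
  Classical.choose_spec (exists_pull ψ p) c b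

/-- The forms `c db₁ ∧ ... ∧ db_p` generate the group of `p`-forms. -/
theorem Form.induction {p : ℕ} {P : Form F S p → Prop} (h0 : P 0)
    (hadd : ∀ a b, P a → P b → P (a + b)) (hgen : ∀ (c : S) (b : Fin p → S), P (Form.mk F c b)) :
    ∀ η, P η :=
  CdhForms.form_induction (P := P) h0 hadd hgen

theorem pull_unique (ψ : S →ₐ[F] T) {p : ℕ} (f : Form F S p →+ Form F T p)
    (hf : ∀ (c : S) (b : Fin p → S), f (Form.mk F c b) = Form.mk F (ψ c) (fun i => ψ (b i))) :
    f = pull ψ p := by
  ext η
  induction η using Form.induction with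
  | h0 => rw [map_zero, map_zero]
  | hadd a b ha hb => rw [map_add, map_add, ha, hb]
  | hgen c b => rw [hf, pull_mk]

theorem pull_eq (ψ : S →ₐ[F] T) (p : ℕ) : pull ψ p = CdhForms.pull ψ p :=
  (pull_unique ψ (CdhForms.pull ψ p) fun c b => CdhForms.pull_gen ψ c b).symm

theorem pull_pull (χ : T →ₐ[F] U) (ψ : S →ₐ[F] T) (p : ℕ) (η : Form F S p) :
    pull χ p (pull ψ p η) = pull (χ.comp ψ) p η := by
  induction η using Form.induction with
  | h0 => simp only [map_zero]
  | hadd a b ha hb => simp only [map_add, ha, hb]
  | hgen c b => simp only [pull_mk, AlgHom.comp_apply]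

end

section
variable (F R : Type u) [CommRing F] [CommRing R] [Algebra F R] (p : ℕ)

/-- A point of `Spec R` with values in a valuation ring: a valuation ring `O`, an `F`-algebra,
with an `F`-algebra homomorphism `φ : R → O`. -/
structure Point where
  /-- the valuation ring -/
  O : Type u
  [ring : CommRing O]
  [domain : IsDomain O]
  [valuation : ValuationRing O]
  [algebra : Algebra F O]
  /-- the homomorphism -/
  φ : R →ₐ[F] O

attribute [instance] Point.ring Point.domain Point.valuation Point.algebra

variable {F R p} in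
/-- Compatible families of `p`-forms on valuation rings: a Kaehler `p`-form `v x` of `O` for all
valuation rings `O` and all `φ : R → O`, compatible with all `F`-algebra homomorphisms
`ψ : O → O'` of valuation rings. -/
def Compatible (v : ∀ x : Point F R, Form F x.O p) : Prop :=
  ∀ (x y : Point F R) (ψ : x.O →ₐ[F] y.O), ψ.comp x.φ = y.φ → pull ψ p (v x) = v y

/-- The Kaehler `p`-forms of `R` over `F` do not give all compatible families of `p`-forms on
valuation rings. -/
def NotOnto : Prop :=
  ∃ v : ∀ x : Point F R, Form F x.O p, Compatible v ∧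
    ∀ η : Form F R p, ∃ x : Point F R, pull x.φ p η ≠ v x

variable {F R p}

/-- The family given by a Kaehler form of `R` is compatible. -/
theorem compatible_pull (η : Form F R p) : Compatible (fun x : Point F R => pull x.φ p η) := by
  intro x y ψ h
  rw [pull_pull, h]

theorem notOnto_of (h : ¬ Function.Surjective (CdhForms.toValForm F R p)) : NotOnto F R p := by
  rw [Function.Surjective, not_forall] at h
  obtain ⟨v, hv⟩ := h
  refine ⟨fun x => v.val x.O x.φ, ?_, ?_⟩
  · intro x y ψ h
    rw [pull_eq]
    refine (v.compat x.O y.O x.φ ψ).trans ?_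
    rw [h]
  · intro η
    by_contra hx
    push Not at hx
    apply hv
    refine ⟨η, ?_⟩
    apply CdhForms.ValForm.ext
    funext O _ _ _ _ φ
    have h1 := hx ⟨O, φ⟩
    rw [pull_eq] at h1
    exact h1

end

end

end ValForms
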