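import Pool.Agent.Work.MP_fc775b_ag.Arc

/-!
Arcs: the hypothesis in terms of the two ratios of weight zero.
-/

open scoped TensorProduct PowerSeries
open PowerSeries

namespace CdhForms

universe u

noncomputable section

variable {F k K R : Type u} [CommRing F] [Field k] [Field K] [Algebra F k]
  [Algebra F K] [Algebra k K] [IsScalarTower F k K] [CommRing R] [Algebra F R]

theorem der_pow_mul (D : Derivation k K K) (u : K) (n : ℕ) : D (u ^ n) * u = n * u ^ n * D u := by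
  rcases n with _ | n
  · simp
  · rw [Derivation.leibniz_pow]
    simp only [Nat.add_sub_cancel, smul_eq_mul, nsmul_eq_mul, Nat.cast_add, Nat.cast_one]
    ring

/-- Logarithmic derivative of `z ^ a / x ^ c`. -/
theorem der_ratio (D : Derivation k K K) {x z : K} (hx : x ≠ 0) (a c : ℕ) :
    D (z ^ a / x ^ c) * (x * z) = z ^ a / x ^ c * (a * x * D z - c * z * D x) := by
  have h1 := der_pow_mul D z a
  have h2 := der_pow_mul D x c
  have h3 : z ^ a / x ^ c * x ^ c = z ^ a := div_mul_cancel₀ _ (pow_ne_zero c hx)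
  have h4 : D (z ^ a / x ^ c * x ^ c) = D (z ^ a) := by rw [h3]
  rw [Derivation.leibniz, smul_eq_mul, smul_eq_mul] at h4
  generalize z ^ a / x ^ c = P at *
  apply mul_left_cancel₀ (pow_ne_zero c hx)
  linear_combination (x * z) * h4 + x * h1 - P * z * h2 + (a * D z * x) * (-h3)

omit [Algebra F k] [IsScalarTower F k K] in
theorem const_of_zero (φ : R →ₐ[F] K⟦X⟧) {e : ℕ} (he : 0 < e) (hφ : ConstMod k φ e) (x : R) :
    ∃ c : k, coeff 0 (φ x) = algebraMap k K c := by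
  obtain ⟨c, hc⟩ := hφ x
  rw [X_pow_dvd_iff] at hc
  have h0 := hc 0 he
  rw [map_sub, coeff_zero_C, sub_eq_zero] at h0
  exact ⟨c, h0⟩

/-- The core of the argument in terms of two derivations. -/
theorem arc4_der [CharZero K] (φ : R →ₐ[F] K⟦X⟧) (e : ℕ) (hφ : ConstMod k φ e) {x y z w : R}
    (h : x * y = z * w) {a c d : ℕ} (hac : a ≤ c) (had : a ≤ d) (hlt : c + d < 3 * e)
    (hx : X ^ a ∣ φ x) (hz : X ^ c ∣ φ z) (hw : X ^ d ∣ φ w) (hx0 : coeff a (φ x) ≠ 0)
    (D₁ D₂ : Derivation k K K)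
    (hD : D₁ (coeff c (φ z) ^ a / coeff a (φ x) ^ c) * D₂ (coeff d (φ w) ^ a / coeff a (φ x) ^ d) -
      D₂ (coeff c (φ z) ^ a / coeff a (φ x) ^ c) * D₁ (coeff d (φ w) ^ a / coeff a (φ x) ^ d) ≠ 0) :
    ¬ Function.Surjective (toValForm F R 2) := by
  intro hsurj
  obtain ⟨η, hη⟩ := hsurj (form4 F h)
  have hpull : pull φ 2 η = (form4 F h).val K⟦X⟧ φ :=
    congrArg (fun ω : ValForm F R 2 => ω.val K⟦X⟧ φ) hη
  obtain ⟨A, hA, hAd, hAc⟩ := exists_div had hx hw hx0
  obtain ⟨B, hB, hBd, hBc⟩ := exists_div hac hx hz hx0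
  have hId := T_identity φ hφ hlt D₁ D₂ η
  rw [hpull] at hId
  have tE : ∀ D : Derivation k K K,
      coeff (c + d) (ev2 (Eu F K) (Dt F D) ((form4 F h).val K⟦X⟧ φ)) =
      coeff a (φ x) ^ 2 * (((d - a : ℕ) : K) * coeff (d - a) A * D (coeff (c - a) B) -
        D (coeff (d - a) A) * (((c - a : ℕ) : K) * coeff (c - a) B)) := by
    intro D
    refine (T_form4 φ h hac had hx hx0 hA hAd hB hBd _ _ _ _).trans ?_
    change _ * ((d - a) • coeff (d - a) A * D _ - D _ * ((c - a) • coeff (c - a) B)) = _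
    rw [nsmul_eq_mul, nsmul_eq_mul]
  have tD : coeff (c + d) (ev2 (Dt F D₁) (Dt F D₂) ((form4 F h).val K⟦X⟧ φ)) =
      coeff a (φ x) ^ 2 * (D₁ (coeff (d - a) A) * D₂ (coeff (c - a) B) -
        D₂ (coeff (d - a) A) * D₁ (coeff (c - a) B)) :=
    T_form4 φ h hac had hx hx0 hA hAd hB hBd _ _ _ _
  rw [tE, tE, tE, tD] at hId
  have hw0 : coeff d (φ w) = coeff a (φ x) * coeff (d - a) A := by
    rw [hAc]; field_simp
  have hz0 : coeff c (φ z) = coeff a (φ x) * coeff (c - a) B := by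
    rw [hBc]; field_simp
  have r1 := der_ratio D₁ (z := coeff c (φ z)) hx0 a c
  have r2 := der_ratio D₂ (z := coeff c (φ z)) hx0 a c
  have r3 := der_ratio D₁ (z := coeff d (φ w)) hx0 a d
  have r4 := der_ratio D₂ (z := coeff d (φ w)) hx0 a d
  have ha : a ≠ 0 := by
    rintro rfl
    apply hD
    obtain ⟨c', hc'⟩ := const_of_zero φ (by omega) hφ x
    have h1 : coeff c (φ z) ^ 0 / coeff 0 (φ x) ^ c = algebraMap k K (1 / c' ^ c) := by
      rw [hc']; simp
    rw [h1, D₁.map_algebraMap, D₂.map_algebraMap]; ring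
  have hz1 : coeff c (φ z) ≠ 0 := by
    intro h0
    apply hD
    rw [h0, zero_pow ha, zero_div, map_zero, map_zero]; ring
  have hw1 : coeff d (φ w) ≠ 0 := by
    intro h0
    apply hD
    rw [h0, zero_pow ha, zero_div, map_zero, map_zero]; ring
  have hE : 2 * ((a * coeff a (φ x) * D₁ (coeff c (φ z)) - c * coeff c (φ z) * D₁ (coeff a (φ x))) *
      (a * coeff a (φ x) * D₂ (coeff d (φ w)) - d * coeff d (φ w) * D₂ (coeff a (φ x))) -
      (a * coeff a (φ x) * D₂ (coeff c (φ z)) - c * coeff c (φ z) * D₂ (coeff a (φ x))) *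
      (a * coeff a (φ x) * D₁ (coeff d (φ w)) - d * coeff d (φ w) * D₁ (coeff a (φ x)))) = 0 := by
    rw [hw0, hz0]
    rw [Nat.cast_sub had, Nat.cast_sub hac, Nat.cast_add] at hId
    simp only [Derivation.leibniz, Derivation.map_natCast, map_sub, smul_eq_mul,
      Derivation.commutator_apply, pow_two] at hId ⊢
    linear_combination (a * coeff a (φ x) ^ 2) * hId
  have hE' := (mul_eq_zero.mp hE).resolve_left two_ne_zero
  generalize coeff c (φ z) ^ a / coeff a (φ x) ^ c = P at *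
  generalize coeff d (φ w) ^ a / coeff a (φ x) ^ d = Q at *
  apply hD
  have hne : coeff a (φ x) * coeff c (φ z) * (coeff a (φ x) * coeff d (φ w)) ≠ 0 :=
    mul_ne_zero (mul_ne_zero hx0 hz1) (mul_ne_zero hx0 hw1)
  apply mul_right_cancel₀ hne
  rw [zero_mul]
  have e1 : (D₁ P * D₂ Q - D₂ P * D₁ Q) *
      (coeff a (φ x) * coeff c (φ z) * (coeff a (φ x) * coeff d (φ w))) =
      (D₁ P * (coeff a (φ x) * coeff c (φ z))) * (D₂ Q * (coeff a (φ x) * coeff d (φ w))) -
      (D₂ P * (coeff a (φ x) * coeff c (φ z))) * (D₁ Q * (coeff a (φ x) * coeff d (φ w))) := by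
    ring
  rw [e1, r1, r2, r3, r4]
  linear_combination (P * Q) * hE'

theorem arc3_der [CharZero K] (φ : R →ₐ[F] K⟦X⟧) (e : ℕ) (hφ : ConstMod k φ e) {x y z : R}
    (h : x * y = z * z) {a c : ℕ} (hac : a ≤ c) (hlt : c < 2 * e)
    (hx : X ^ a ∣ φ x) (hz : X ^ c ∣ φ z) (hx0 : coeff a (φ x) ≠ 0)
    (D : Derivation k K K) (hD : D (coeff c (φ z) ^ a / coeff a (φ x) ^ c) ≠ 0) :
    ¬ Function.Surjective (toValForm F R 1) := by
  intro hsurj
  obtain ⟨η, hη⟩ := hsurj (form3 F h)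
  have hpull : pull φ 1 η = (form3 F h).val K⟦X⟧ φ :=
    congrArg (fun ω : ValForm F R 1 => ω.val K⟦X⟧ φ) hη
  obtain ⟨B, hB, hBd, hBc⟩ := exists_div hac hx hz hx0
  have hId := T1_identity φ hφ hlt D η
  rw [hpull] at hId
  have tE : coeff c (ev1 (Eu F K) ((form3 F h).val K⟦X⟧ φ)) =
      coeff a (φ x) * (((c - a : ℕ) : K) * coeff (c - a) B) := by
    refine (T_form3 φ h hac hx hx0 hB hBd _ _).trans ?_
    change _ * ((c - a) • coeff (c - a) B) = _
    rw [nsmul_eq_mul]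
  have tD : coeff c (ev1 (Dt F D) ((form3 F h).val K⟦X⟧ φ)) =
      coeff a (φ x) * D (coeff (c - a) B) :=
    T_form3 φ h hac hx hx0 hB hBd _ _
  rw [tE, tD] at hId
  have hz0 : coeff c (φ z) = coeff a (φ x) * coeff (c - a) B := by
    rw [hBc]; field_simp
  have r1 := der_ratio D (z := coeff c (φ z)) hx0 a c
  have ha : a ≠ 0 := by
    rintro rfl
    apply hD
    obtain ⟨c', hc'⟩ := const_of_zero φ (by omega) hφ x
    have h1 : coeff c (φ z) ^ 0 / coeff 0 (φ x) ^ c = algebraMap k K (1 / c' ^ c) := by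
      rw [hc']; simp
    rw [h1, D.map_algebraMap]
  have hz1 : coeff c (φ z) ≠ 0 := by
    intro h0
    apply hD
    rw [h0, zero_pow ha, zero_div, map_zero]
  have hE : a * coeff a (φ x) * D (coeff c (φ z)) - c * coeff c (φ z) * D (coeff a (φ x)) = 0 := by
    rw [hz0]
    rw [Nat.cast_sub hac] at hId
    simp only [Derivation.leibniz, Derivation.map_natCast, map_sub, smul_eq_mul] at hId ⊢
    linear_combination (-coeff a (φ x)) * hId
  apply hD
  apply mul_right_cancel₀ (mul_ne_zero hx0 hz1)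
  rw [r1, hE]; ring

theorem arc4' [CharZero k] (φ : R →ₐ[F] K⟦X⟧) (e : ℕ) (hφ : ConstMod k φ e) {x y z w : R}
    (h : x * y = z * w) {a c d : ℕ} (hac : a ≤ c) (had : a ≤ d) (hlt : c + d < 3 * e)
    (hx : X ^ a ∣ φ x) (hz : X ^ c ∣ φ z) (hw : X ^ d ∣ φ w) (hx0 : coeff a (φ x) ≠ 0)
    (hind : AlgebraicIndependent k ![coeff c (φ z) ^ a / coeff a (φ x) ^ c,
      coeff d (φ w) ^ a / coeff a (φ x) ^ d]) :
    ¬ Function.Surjective (toValForm F R 2) := by
  have : CharZero K := charZero_of_injective_algebraMap (algebraMap k K).injective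
  obtain ⟨D₁, hD₁⟩ := exists_derivation _ hind ![1, 0]
  obtain ⟨D₂, hD₂⟩ := exists_derivation _ hind ![0, 1]
  refine arc4_der φ e hφ h hac had hlt hx hz hw hx0 D₁ D₂ ?_
  have a1 := hD₁ 0
  have a2 := hD₁ 1
  have a3 := hD₂ 0
  have a4 := hD₂ 1
  simp only [Matrix.cons_val_zero, Matrix.cons_val_one] at a1 a2 a3 a4
  rw [a1, a2, a3, a4]
  simp

theorem arc3' [CharZero k] (φ : R →ₐ[F] K⟦X⟧) (e : ℕ) (hφ : ConstMod k φ e) {x y z : R}
    (h : x * y = z * z) {a c : ℕ} (hac : a ≤ c) (hlt : c < 2 * e)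
    (hx : X ^ a ∣ φ x) (hz : X ^ c ∣ φ z) (hx0 : coeff a (φ x) ≠ 0)
    (hind : Transcendental k (coeff c (φ z) ^ a / coeff a (φ x) ^ c)) :
    ¬ Function.Surjective (toValForm F R 1) := by
  have : CharZero K := charZero_of_injective_algebraMap (algebraMap k K).injective
  have hind' : AlgebraicIndependent k ![coeff c (φ z) ^ a / coeff a (φ x) ^ c] := by
    rw [algebraicIndependent_unique_type_iff]
    exact hind
  obtain ⟨D, hD⟩ := exists_derivation _ hind' ![1]
  refine arc3_der φ e hφ h hac hlt hx hz hx0 D ?_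
  have a1 := hD 0
  simp only [Matrix.cons_val_zero] at a1
  rw [a1]
  exact one_ne_zero

end

end CdhForms
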