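import Pool.Agent.Work.MP_fc775b_ag.Cor
import Pool.Agent.Work.MP_fc775b_ag.ArcB

/-!
The graded versions without the assumption that `R` is a domain.
-/

set_option autoImplicit false

open DirectSum

namespace CdhForms

universe u

/-- Algebraically independent elements stay algebraically independent in some field. -/
theorem exists_field {k R : Type u} [Field k] [CommRing R] [Algebra k R] {n : ℕ} {v : Fin n → R}
    (hv : AlgebraicIndependent k v) :
    ∃ (K : Type u) (_ : Field K) (_ : Algebra R K) (_ : Algebra k K) (_ : IsScalarTower k R K),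
      AlgebraicIndependent k (fun i => algebraMap R K (v i)) := by
  let f : MvPolynomial (Fin n) k →ₐ[k] R := MvPolynomial.aeval v
  have hf : Function.Injective f := hv
  let S : Submonoid R := (nonZeroDivisors (MvPolynomial (Fin n) k)).map f
  have hS : (0 : R) ∉ S := by
    rintro ⟨q, hq, h0⟩
    have h1 : q = 0 := hf (by rw [h0, map_zero])
    exact nonZeroDivisors.ne_zero hq h1
  have hdis : Disjoint ((⊥ : Ideal R) : Set R) (S : Set R) := by
    rw [Set.disjoint_left]
    intro a ha haS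
    have h1 : a = 0 := ha
    rw [h1] at haS
    exact hS haS
  obtain ⟨p, hp, -, hpS⟩ := Ideal.exists_le_prime_disjoint (⊥ : Ideal R) S hdis
  let K := FractionRing (R ⧸ p)
  refine ⟨K, inferInstance, inferInstance, inferInstance, inferInstance, ?_⟩
  rw [algebraicIndependent_iff]
  intro q hq
  by_contra hq0
  have h1 : algebraMap R K (f q) = 0 := by
    rw [← hq]
    exact (MvPolynomial.aeval_algebraMap_apply (A := R) K v q).symm
  have h2 : (algebraMap (R ⧸ p) K) (Ideal.Quotient.mk p (f q)) = 0 := h1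
  rw [map_eq_zero_iff _ (IsFractionRing.injective (R ⧸ p) K), Ideal.Quotient.eq_zero_iff_mem] at h2
  exact Set.disjoint_left.1 hpS h2 ⟨q, mem_nonZeroDivisors_of_ne_zero hq0, rfl⟩

section

variable {F k R : Type u} [CommRing F] [Field k] [CharZero k] [CommRing R]
  [Algebra F k] [Algebra k R] [Algebra F R] [IsScalarTower F k R] (𝒜 : ℕ → Submodule k R)
  [GradedAlgebra 𝒜]

/-- A relation `x y = z w` of low degree in a graded ring. -/
theorem graded4' {e : ℕ} (h0 : ∀ a ∈ 𝒜 0, ∃ c : k, algebraMap k R c = a)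
    (he : ∀ n, 0 < n → n < e → 𝒜 n = ⊥) {x y z w : R} (h : x * y = z * w) {a c d : ℕ}
    (hx : x ∈ 𝒜 a) (hz : z ∈ 𝒜 c) (hw : w ∈ 𝒜 d) (hac : a ≤ c) (had : a ≤ d)
    (hlt : c + d < 3 * e) (hind : AlgebraicIndependent k ![x, z, w]) :
    ¬ Function.Surjective (toValForm F R 2) := by
  obtain ⟨K, hK1, hK2, hK3, hK4, hindK⟩ := exists_field hind
  let : Algebra F K := ((algebraMap k K).comp (algebraMap F k)).toAlgebra
  have : IsScalarTower F k K := IsScalarTower.of_algebraMap_eq' rfl
  refine arc4 (k := k) (K := K) (arc (F := F) 𝒜 K) e (arc_const 𝒜 K h0 he) h hac had hlt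
    (dvd_arc 𝒜 hx) (dvd_arc 𝒜 hz) (dvd_arc 𝒜 hw) ?_
  rw [coeff_arc 𝒜 hx, coeff_arc 𝒜 hz, coeff_arc 𝒜 hw]
  have h2 : (fun i => algebraMap R K (![x, z, w] i)) =
      ![algebraMap R K x, algebraMap R K z, algebraMap R K w] := by
    funext i
    fin_cases i <;> rfl
  rwa [h2] at hindK

/-- A relation `x y = z²` of low degree in a graded ring. -/
theorem graded3' {e : ℕ} (h0 : ∀ a ∈ 𝒜 0, ∃ c : k, algebraMap k R c = a)
    (he : ∀ n, 0 < n → n < e → 𝒜 n = ⊥) {x y z : R} (h : x * y = z * z) {a c : ℕ}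
    (hx : x ∈ 𝒜 a) (hz : z ∈ 𝒜 c) (hac : a ≤ c) (hlt : c < 2 * e)
    (hind : AlgebraicIndependent k ![x, z]) :
    ¬ Function.Surjective (toValForm F R 1) := by
  obtain ⟨K, hK1, hK2, hK3, hK4, hindK⟩ := exists_field hind
  let : Algebra F K := ((algebraMap k K).comp (algebraMap F k)).toAlgebra
  have : IsScalarTower F k K := IsScalarTower.of_algebraMap_eq' rfl
  refine arc3 (k := k) (K := K) (arc (F := F) 𝒜 K) e (arc_const 𝒜 K h0 he) h hac hlt
    (dvd_arc 𝒜 hx) (dvd_arc 𝒜 hz) ?_
  rw [coeff_arc 𝒜 hx, coeff_arc 𝒜 hz]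
  have h2 : (fun i => algebraMap R K (![x, z] i)) = ![algebraMap R K x, algebraMap R K z] := by
    funext i
    fin_cases i <;> rfl
  rwa [h2] at hindK

/-- Two homogeneous elements `x`, `z` of degrees `a`, `c` of a graded domain over an algebraically
closed field: it is enough that `x ≠ 0` and that `z ^ a` is not a multiple of `x ^ c`. -/
theorem graded3_closed' [IsDomain R] [IsAlgClosed k] {e : ℕ}
    (h0 : ∀ a ∈ 𝒜 0, ∃ c : k, algebraMap k R c = a)
    (he : ∀ n, 0 < n → n < e → 𝒜 n = ⊥) {x y z : R} (h : x * y = z * z) {a c : ℕ}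
    (hx : x ∈ 𝒜 a) (hz : z ∈ 𝒜 c) (hac : a ≤ c) (hlt : c < 2 * e) (hx0 : x ≠ 0)
    (hne : ∀ κ : k, z ^ a ≠ κ • x ^ c) :
    ¬ Function.Surjective (toValForm F R 1) := by
  let K := FractionRing R
  have : IsScalarTower F k K := isScalarTower_fractionRing
  have hinj : Function.Injective (algebraMap R K) := IsFractionRing.injective R K
  have hx0' : algebraMap R K x ≠ 0 := by
    rw [Ne, map_eq_zero_iff _ hinj]; exact hx0
  refine arc3' (k := k) (K := K) (arc (F := F) 𝒜 K) e (arc_const 𝒜 K h0 he) h hac hlt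
    (dvd_arc 𝒜 hx) (dvd_arc 𝒜 hz) ?_ ?_
  · rw [coeff_arc 𝒜 hx]; exact hx0'
  · rw [coeff_arc 𝒜 hx, coeff_arc 𝒜 hz]
    intro halg
    have h2 : Algebra.IsAlgebraic k
        (IntermediateField.adjoin k {algebraMap R K z ^ a / algebraMap R K x ^ c}) :=
      IntermediateField.isAlgebraic_adjoin_simple halg.isIntegral
    have h3 := IntermediateField.eq_bot_of_isAlgClosed_of_isAlgebraic
      (IntermediateField.adjoin k {algebraMap R K z ^ a / algebraMap R K x ^ c})
    have h4 : algebraMap R K z ^ a / algebraMap R K x ^ c ∈ (⊥ : IntermediateField k K) := by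
      rw [← h3]
      exact IntermediateField.mem_adjoin_simple_self k _
    obtain ⟨κ, hκ⟩ := IntermediateField.mem_bot.mp h4
    have hκ' := hκ.symm
    rw [div_eq_iff (pow_ne_zero c hx0'), IsScalarTower.algebraMap_apply k R K, ← map_pow,
      ← map_pow, ← map_mul] at hκ'
    apply hne κ
    rw [Algebra.smul_def]
    exact hinj hκ'

end

section Veronese

variable {F k R : Type u} [CommRing F] [Field k] [CommRing R]
  [Algebra F k] [Algebra k R] [Algebra F R] [IsScalarTower F k R] (𝒜 : ℕ → Submodule k R)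
  [GradedAlgebra 𝒜]

/-- Proper Veronese subrings. -/
theorem veronese_not_surjective' [CharZero k]
    (h0 : ∀ a ∈ 𝒜 0, ∃ c : k, algebraMap k R c = a) {m : ℕ} (hm : 2 ≤ m) {s t : R}
    (hs : s ∈ 𝒜 1) (ht : t ∈ 𝒜 1) (hind : AlgebraicIndependent k ![s, t]) :
    ¬ Function.Surjective (toValForm F (veronese 𝒜 m) 1) := by
  obtain ⟨K, hK1, hK2, hK3, hK4, hindK⟩ := exists_field hind
  let : Algebra F K := ((algebraMap k K).comp (algebraMap F k)).toAlgebra
  have : IsScalarTower F k K := IsScalarTower.of_algebraMap_eq' rfl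
  have hsm : ∀ j ≤ m, s ^ (m - j) * t ^ j ∈ 𝒜 m := by
    intro j hj
    have h1 := SetLike.mul_mem_graded (SetLike.pow_mem_graded (m - j) hs)
      (SetLike.pow_mem_graded j ht)
    have h2 : (m - j) • 1 + j • 1 = m := by
      simp only [smul_eq_mul, mul_one]
      omega
    rwa [h2] at h1
  have hV : ∀ j ≤ m, s ^ (m - j) * t ^ j ∈ veronese 𝒜 m := by
    intro j hj
    apply Algebra.subset_adjoin
    exact ⟨1, by rw [mul_one]; exact hsm j hj⟩
  let x : veronese 𝒜 m := ⟨_, hV 0 (by omega)⟩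
  let z : veronese 𝒜 m := ⟨_, hV 1 (by omega)⟩
  let y : veronese 𝒜 m := ⟨_, hV 2 hm⟩
  have hxyz : x * y = z * z := by
    apply Subtype.ext
    show s ^ (m - 0) * t ^ 0 * (s ^ (m - 2) * t ^ 2) = s ^ (m - 1) * t ^ 1 * (s ^ (m - 1) * t ^ 1)
    obtain ⟨l, rfl⟩ := Nat.exists_eq_add_of_le hm
    have e1 : 2 + l - 0 = l + 2 := by omega
    have e2 : 2 + l - 2 = l := by omega
    have e3 : 2 + l - 1 = l + 1 := by omega
    rw [e1, e2, e3]
    ring
  have harc : ∀ j (hj : j ≤ m), veroneseArc F 𝒜 m K ⟨_, hV j hj⟩ =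
      PowerSeries.X ^ m * PowerSeries.C (algebraMap R K (s ^ (m - j) * t ^ j)) := by
    intro j hj
    exact arck_apply 𝒜 K (hsm j hj)
  have h1 : AlgebraicIndependent k ![algebraMap R K s, algebraMap R K t] := by
    have h2 := hindK
    have h3 : (fun i => algebraMap R K (![s, t] i)) = ![algebraMap R K s, algebraMap R K t] := by
      funext i
      fin_cases i <;> rfl
    rwa [h3] at h2
  have h2 := algebraicIndependent_pow (algebraicIndependent_pow_mul h1 (m - 1))
    (show 0 < m by omega)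
  have hcoeff : ∀ j (hj : j ≤ m), PowerSeries.coeff m (veroneseArc F 𝒜 m K ⟨_, hV j hj⟩) =
      algebraMap R K s ^ (m - j) * algebraMap R K t ^ j := by
    intro j hj
    rw [harc j hj]
    have e := PowerSeries.coeff_X_pow_mul
      (PowerSeries.C (algebraMap R K (s ^ (m - j) * t ^ j))) m 0
    rw [zero_add] at e
    rw [e, PowerSeries.coeff_zero_C, map_mul, map_pow, map_pow]
  have hx1 : PowerSeries.coeff m (veroneseArc F 𝒜 m K x) = algebraMap R K s ^ m := by
    have := hcoeff 0 (by omega)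
    rw [this, Nat.sub_zero, pow_zero, mul_one]
  have hz1 : PowerSeries.coeff m (veroneseArc F 𝒜 m K z) =
      algebraMap R K s ^ (m - 1) * algebraMap R K t := by
    have := hcoeff 1 (by omega)
    rw [this, pow_one]
  refine arc3 (k := k) (K := K) (veroneseArc F 𝒜 m K) m (veroneseArc_const 𝒜 K h0) hxyz
    (le_refl m) (by omega) ?_ ?_ ?_
  · rw [show veroneseArc F 𝒜 m K x = _ from harc 0 (by omega)]
    exact Dvd.intro _ rfl
  · rw [show veroneseArc F 𝒜 m K z = _ from harc 1 (by omega)]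
    exact Dvd.intro _ rfl
  · rw [hx1, hz1]
    exact h2

end Veronese

end CdhForms
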