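import Pool.Agent.Work.MP_fc775b_ag.Forms

/-!
The arc `R → K⟦X⟧`, `r ↦ r X ^ n` for `r` homogeneous of degree `n`, of a graded domain `R`
with fraction field `K`.
-/

set_option autoImplicit false

open DirectSum

namespace CdhForms

universe u

section

variable {F k R : Type u} [CommRing F] [Field k] [CommRing R] [Algebra F k] [Algebra k R]
  [Algebra F R] [IsScalarTower F k R] (𝒜 : ℕ → Submodule k R) [GradedAlgebra 𝒜]
  (K : Type u) [Field K] [Algebra R K] [Algebra k K] [IsScalarTower k R K]

/-- The arc as a `k`-algebra homomorphism. -/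
noncomputable def arck : R →ₐ[k] PowerSeries K :=
  (DirectSum.toAlgebra k (fun n => 𝒜 n)
    (fun n => (PowerSeries.monomial (R := K) n).restrictScalars k ∘ₗ
      (IsScalarTower.toAlgHom k R K).toLinearMap ∘ₗ (𝒜 n).subtype)
    (by
      show PowerSeries.monomial 0 (algebraMap R K 1) = 1
      rw [map_one, PowerSeries.monomial_zero_eq_C_apply, map_one])
    (by
      intro i j a b
      show PowerSeries.monomial (i + j) (algebraMap R K ((a : R) * (b : R))) =
        PowerSeries.monomial i (algebraMap R K a) * PowerSeries.monomial j (algebraMap R K b)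
      rw [map_mul (algebraMap R K), PowerSeries.monomial_mul_monomial])).comp (DirectSum.decomposeAlgEquiv 𝒜).toAlgHom

theorem arck_apply {n : ℕ} {a : R} (ha : a ∈ 𝒜 n) :
    arck 𝒜 K a = PowerSeries.X ^ n * PowerSeries.C (algebraMap R K a) := by
  have h1 : DirectSum.decomposeAlgEquiv 𝒜 a = DirectSum.of (fun n => 𝒜 n) n ⟨a, ha⟩ :=
    DirectSum.decompose_of_mem 𝒜 ha
  have h2 : arck 𝒜 K a = DirectSum.toModule k ℕ (PowerSeries K)
      (fun n => (PowerSeries.monomial (R := K) n).restrictScalars k ∘ₗ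
        (IsScalarTower.toAlgHom k R K).toLinearMap ∘ₗ (𝒜 n).subtype)
      (DirectSum.decomposeAlgEquiv 𝒜 a) := rfl
  have h3 : DirectSum.toModule k ℕ (PowerSeries K)
      (fun n => (PowerSeries.monomial (R := K) n).restrictScalars k ∘ₗ
        (IsScalarTower.toAlgHom k R K).toLinearMap ∘ₗ (𝒜 n).subtype)
      (DirectSum.lof k ℕ (fun n => 𝒜 n) n ⟨a, ha⟩) =
        PowerSeries.monomial n (algebraMap R K a) := by
    rw [DirectSum.toModule_lof]
    rfl
  rw [h2, h1]
  refine h3.trans ?_
  rw [PowerSeries.X_pow_eq, ← PowerSeries.monomial_zero_eq_C_apply,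
    PowerSeries.monomial_mul_monomial, add_zero, one_mul]

/-- The arc is constant modulo `X ^ e` if there are no elements of degree `1, ..., e - 1`. -/
theorem arck_const {e : ℕ} (h0 : ∀ a ∈ 𝒜 0, ∃ c : k, algebraMap k R c = a)
    (he : ∀ n, 0 < n → n < e → 𝒜 n = ⊥) (r : R) :
    ∃ c : k, PowerSeries.X ^ e ∣ arck 𝒜 K r - PowerSeries.C (algebraMap k K c) := by
  induction r using DirectSum.Decomposition.inductionOn 𝒜 with
  | zero => exact ⟨0, by simp⟩
  | add a b ha hb =>
    obtain ⟨c, hc⟩ := ha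
    obtain ⟨d, hd⟩ := hb
    refine ⟨c + d, ?_⟩
    have := dvd_add hc hd
    rwa [map_add, map_add, map_add, add_sub_add_comm]
  | homogeneous a =>
    rename_i n
    rcases Nat.eq_zero_or_pos n with rfl | hn
    · obtain ⟨c, hc⟩ := h0 a a.2
      refine ⟨c, ?_⟩
      rw [arck_apply 𝒜 K a.2, pow_zero, one_mul, ← hc, ← IsScalarTower.algebraMap_apply, sub_self]
      exact dvd_zero _
    · rcases Nat.lt_or_ge n e with hne | hne
      · refine ⟨0, ?_⟩
        have h1 : (a : R) = 0 := by
          have h2 : ∀ b ∈ 𝒜 n, b = 0 := by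
            rw [he n hn hne]
            exact fun b hb => (Submodule.mem_bot k).1 hb
          exact h2 a a.2
        rw [h1]
        simp
      · refine ⟨0, ?_⟩
        rw [arck_apply 𝒜 K a.2, map_zero, map_zero, sub_zero]
        exact Dvd.dvd.mul_right (pow_dvd_pow _ hne) _

end

section

variable {F k R : Type u} [CommRing F] [Field k] [CommRing R] [Algebra F k] [Algebra k R]
  [Algebra F R] [IsScalarTower F k R] (𝒜 : ℕ → Submodule k R) [GradedAlgebra 𝒜]
  (K : Type u) [Field K] [Algebra R K] [Algebra k K] [IsScalarTower k R K]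
  [Algebra F K] [IsScalarTower F k K]

/-- The arc as an `F`-algebra homomorphism. -/
noncomputable def arc : R →ₐ[F] PowerSeries K := (arck 𝒜 K).restrictScalars F

theorem arc_apply {n : ℕ} {a : R} (ha : a ∈ 𝒜 n) :
    arc (F := F) 𝒜 K a = PowerSeries.X ^ n * PowerSeries.C (algebraMap R K a) :=
  arck_apply 𝒜 K ha

theorem arc_const {e : ℕ} (h0 : ∀ a ∈ 𝒜 0, ∃ c : k, algebraMap k R c = a)
    (he : ∀ n, 0 < n → n < e → 𝒜 n = ⊥) (r : R) :
    ∃ c : k, PowerSeries.X ^ e ∣ arc (F := F) 𝒜 K r - PowerSeries.C (algebraMap k K c) :=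
  arck_const 𝒜 K h0 he r

omit [GradedAlgebra 𝒜] in
/-- Algebraic independence passes to the fraction field. -/
theorem algebraicIndependent_map [IsDomain R] [IsFractionRing R K] {n : ℕ} {v : Fin n → R}
    (hv : AlgebraicIndependent k v) :
    AlgebraicIndependent k (fun i => algebraMap R K (v i)) :=
  hv.map' (f := IsScalarTower.toAlgHom k R K) (IsFractionRing.injective R K)

end

end CdhForms
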