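import Pool.Agent.Work.MP_fc775b_ag.Arc
import Pool.Agent.Work.MP_fc775b_ag.Graded

/-!
The graded versions and the Veronese subrings.
-/

set_option autoImplicit false

open DirectSum

namespace CdhForms

universe u

section

variable {F k R : Type u} [CommRing F] [Field k] [CharZero k] [CommRing R] [IsDomain R]
  [Algebra F k] [Algebra k R] [Algebra F R] [IsScalarTower F k R] (𝒜 : ℕ → Submodule k R)
  [GradedAlgebra 𝒜]

omit [CharZero k] [IsDomain R] in
theorem dvd_arc {K : Type u} [Field K] [Algebra R K] [Algebra k K] [IsScalarTower k R K]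
    [Algebra F K] [IsScalarTower F k K] {n : ℕ} {a : R} (ha : a ∈ 𝒜 n) :
    (PowerSeries.X : PowerSeries K) ^ n ∣ arc (F := F) 𝒜 K a := by
  rw [arc_apply 𝒜 K ha]
  exact Dvd.intro _ rfl

omit [CharZero k] [IsDomain R] in
theorem coeff_arc {K : Type u} [Field K] [Algebra R K] [Algebra k K] [IsScalarTower k R K]
    [Algebra F K] [IsScalarTower F k K] {n : ℕ} {a : R} (ha : a ∈ 𝒜 n) :
    PowerSeries.coeff n (arc (F := F) 𝒜 K a) = algebraMap R K a := by
  rw [arc_apply 𝒜 K ha]
  simp

omit [CharZero k] [IsDomain R] in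
theorem isScalarTower_fractionRing : IsScalarTower F k (FractionRing R) := by
  refine IsScalarTower.of_algebraMap_eq fun r => ?_
  rw [IsScalarTower.algebraMap_apply F R (FractionRing R), IsScalarTower.algebraMap_apply F k R,
    ← IsScalarTower.algebraMap_apply k R (FractionRing R)]

/-- A relation `x y = z w` of low degree in a graded domain. -/
theorem graded4 {e : ℕ} (h0 : ∀ a ∈ 𝒜 0, ∃ c : k, algebraMap k R c = a)
    (he : ∀ n, 0 < n → n < e → 𝒜 n = ⊥) {x y z w : R} (h : x * y = z * w) {a c d : ℕ}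
    (hx : x ∈ 𝒜 a) (hz : z ∈ 𝒜 c) (hw : w ∈ 𝒜 d) (hac : a ≤ c) (had : a ≤ d)
    (hlt : c + d < 3 * e) (hind : AlgebraicIndependent k ![x, z, w]) :
    ¬ Function.Surjective (toValForm F R 2) := by
  let K := FractionRing R
  have : IsScalarTower F k K := isScalarTower_fractionRing
  refine arc4 (k := k) (K := K) (arc (F := F) 𝒜 K) e (arc_const 𝒜 K h0 he) h hac had hlt
    (dvd_arc 𝒜 hx) (dvd_arc 𝒜 hz) (dvd_arc 𝒜 hw) ?_
  rw [coeff_arc 𝒜 hx, coeff_arc 𝒜 hz, coeff_arc 𝒜 hw]
  have h1 := algebraicIndependent_map (k := k) K hind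
  have h2 : (fun i => algebraMap R K (![x, z, w] i)) =
      ![algebraMap R K x, algebraMap R K z, algebraMap R K w] := by
    funext i
    fin_cases i <;> rfl
  rwa [h2] at h1

/-- A relation `x y = z²` of low degree in a graded domain. -/
theorem graded3 {e : ℕ} (h0 : ∀ a ∈ 𝒜 0, ∃ c : k, algebraMap k R c = a)
    (he : ∀ n, 0 < n → n < e → 𝒜 n = ⊥) {x y z : R} (h : x * y = z * z) {a c : ℕ}
    (hx : x ∈ 𝒜 a) (hz : z ∈ 𝒜 c) (hac : a ≤ c) (hlt : c < 2 * e)
    (hind : AlgebraicIndependent k ![x, z]) :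
    ¬ Function.Surjective (toValForm F R 1) := by
  let K := FractionRing R
  have : IsScalarTower F k K := isScalarTower_fractionRing
  refine arc3 (k := k) (K := K) (arc (F := F) 𝒜 K) e (arc_const 𝒜 K h0 he) h hac hlt
    (dvd_arc 𝒜 hx) (dvd_arc 𝒜 hz) ?_
  rw [coeff_arc 𝒜 hx, coeff_arc 𝒜 hz]
  have h1 := algebraicIndependent_map (k := k) K hind
  have h2 : (fun i => algebraMap R K (![x, z] i)) = ![algebraMap R K x, algebraMap R K z] := by
    funext i
    fin_cases i <;> rfl
  rwa [h2] at h1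

end

section Independence

variable {k K : Type u} [Field k] [Field K] [Algebra k K]

theorem algebraicIndependent_pow_mul {s t : K} (h : AlgebraicIndependent k ![s, t]) (n : ℕ) :
    AlgebraicIndependent k ![s, s ^ n * t] := by
  have hs0 : s ≠ 0 := h.ne_zero 0
  rw [AlgebraicIndependent.iff_transcendental_adjoin_image (1 : Fin 2)] at h ⊢
  have himg : (![s, s ^ n * t] : Fin 2 → K) '' {1}ᶜ = (![s, t] : Fin 2 → K) '' {1}ᶜ := by
    apply Set.image_congr
    intro i hi
    fin_cases i
    · rfl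
    · exact absurd rfl hi
  have hfun : (fun j : {j : Fin 2 // j ≠ 1} => (![s, s ^ n * t] : Fin 2 → K) j) =
      fun j : {j : Fin 2 // j ≠ 1} => (![s, t] : Fin 2 → K) j := by
    funext ⟨i, hi⟩
    fin_cases i
    · rfl
    · exact absurd rfl hi
  rw [himg, hfun]
  refine ⟨h.1, fun halg => h.2 ?_⟩
  have hmem : s ^ n ∈ Algebra.adjoin k ((![s, t] : Fin 2 → K) '' {1}ᶜ) :=
    pow_mem (Algebra.subset_adjoin (Set.mem_image_of_mem _ (show (0 : Fin 2) ∈ ({1}ᶜ : Set (Fin 2))
      by simp))) n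
  exact IsAlgebraic.of_mul (y := s ^ n) (mem_nonZeroDivisors_of_ne_zero (pow_ne_zero n hs0))
    (isAlgebraic_algebraMap
      (⟨s ^ n, hmem⟩ : Algebra.adjoin k ((![s, t] : Fin 2 → K) '' {1}ᶜ))) halg

theorem algebraicIndependent_pow {s t : K} (h : AlgebraicIndependent k ![s, t]) {m : ℕ}
    (hm : 0 < m) : AlgebraicIndependent k ![s ^ m, t] := by
  have h1 := h.polynomial_aeval_of_transcendental
    (f := ![(Polynomial.X : Polynomial k) ^ m, Polynomial.X]) (by
      intro i
      fin_cases i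
      · exact (Polynomial.transcendental_X k).pow hm
      · exact Polynomial.transcendental_X k)
  have h2 : (fun i => Polynomial.aeval ((![s, t] : Fin 2 → K) i)
      ((![(Polynomial.X : Polynomial k) ^ m, Polynomial.X] : Fin 2 → Polynomial k) i)) =
      ![s ^ m, t] := by
    funext i
    fin_cases i <;> simp
  rwa [h2] at h1

end Independence

section Veronese

variable {F k R : Type u} [CommRing F] [Field k] [CommRing R]
  [Algebra F k] [Algebra k R] [Algebra F R] [IsScalarTower F k R] (𝒜 : ℕ → Submodule k R)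
  [GradedAlgebra 𝒜]

/-- The `m`-th Veronese subring: the subalgebra generated by the homogeneous elements of degree
divisible by `m`. -/
def veronese (m : ℕ) : Subalgebra k R := Algebra.adjoin k {r | ∃ n, r ∈ 𝒜 (m * n)}

variable (F) in
/-- The arc of the Veronese subring. -/
noncomputable def veroneseArc (m : ℕ) (K : Type u) [Field K] [Algebra R K] [Algebra k K]
    [IsScalarTower k R K] [Algebra F K] [IsScalarTower F k K] :
    veronese 𝒜 m →ₐ[F] PowerSeries K :=
  ((arck 𝒜 K).comp (veronese 𝒜 m).val).restrictScalars F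

theorem veroneseArc_const {m : ℕ} (K : Type u) [Field K] [Algebra R K] [Algebra k K]
    [IsScalarTower k R K] [Algebra F K] [IsScalarTower F k K]
    (h0 : ∀ a ∈ 𝒜 0, ∃ c : k, algebraMap k R c = a) :
    ConstMod k (veroneseArc F 𝒜 m K) m := by
  rintro ⟨r, hr⟩
  show ∃ c : k, PowerSeries.X ^ m ∣ arck 𝒜 K r - PowerSeries.C (algebraMap k K c)
  induction hr using Algebra.adjoin_induction with
  | mem r hr =>
    obtain ⟨n, hn⟩ := hr
    rcases Nat.eq_zero_or_pos n with rfl | hn0
    · obtain ⟨c, hc⟩ := h0 r (by simpa using hn)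
      refine ⟨c, ?_⟩
      rw [← hc, AlgHom.commutes, IsScalarTower.algebraMap_apply k K (PowerSeries K)]
      simp
    · refine ⟨0, ?_⟩
      rw [arck_apply 𝒜 K hn, map_zero, map_zero, sub_zero]
      exact Dvd.dvd.mul_right (pow_dvd_pow _ (Nat.le_mul_of_pos_right m hn0)) _
  | algebraMap c =>
    refine ⟨c, ?_⟩
    rw [AlgHom.commutes, IsScalarTower.algebraMap_apply k K (PowerSeries K)]
    simp
  | add a b _ _ ha hb =>
    obtain ⟨c, hc⟩ := ha
    obtain ⟨d, hd⟩ := hb
    refine ⟨c + d, ?_⟩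
    have := dvd_add hc hd
    rwa [map_add, map_add, map_add, add_sub_add_comm]
  | mul a b _ _ ha hb =>
    obtain ⟨c, hc⟩ := ha
    obtain ⟨d, hd⟩ := hb
    refine ⟨c * d, ?_⟩
    have h1 : arck 𝒜 K (a * b) - PowerSeries.C (algebraMap k K (c * d)) =
        arck 𝒜 K a * (arck 𝒜 K b - PowerSeries.C (algebraMap k K d)) +
          (arck 𝒜 K a - PowerSeries.C (algebraMap k K c)) *
            PowerSeries.C (algebraMap k K d) := by
      rw [map_mul, map_mul, map_mul]
      ring
    rw [h1]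
    exact dvd_add (Dvd.dvd.mul_left hd _) (Dvd.dvd.mul_right hc _)

/-- Proper Veronese subrings. -/
theorem veronese_not_surjective [CharZero k] [IsDomain R]
    (h0 : ∀ a ∈ 𝒜 0, ∃ c : k, algebraMap k R c = a) {m : ℕ} (hm : 2 ≤ m) {s t : R}
    (hs : s ∈ 𝒜 1) (ht : t ∈ 𝒜 1) (hind : AlgebraicIndependent k ![s, t]) :
    ¬ Function.Surjective (toValForm F (veronese 𝒜 m) 1) := by
  let K := FractionRing R
  have : IsScalarTower F k K := isScalarTower_fractionRing
  have hsm : ∀ j ≤ m, s ^ (m - j) * t ^ j ∈ 𝒜 m := by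
    intro j hj
    have h1 := SetLike.mul_mem_graded (SetLike.pow_mem_graded (m - j) hs)
      (SetLike.pow_mem_graded j ht)
    have h2 : (m - j) • 1 + j • 1 = m := by
      simp only [smul_eq_mul, mul_one]
      omega
    rwa [h2] at h1
  have hV : ∀ j ≤ m, s ^ (m - j) * t ^ j ∈ veronese 𝒜 m := by
    intro j hj
    apply Algebra.subset_adjoin
    exact ⟨1, by rw [mul_one]; exact hsm j hj⟩
  let x : veronese 𝒜 m := ⟨_, hV 0 (by omega)⟩
  let z : veronese 𝒜 m := ⟨_, hV 1 (by omega)⟩
  let y : veronese 𝒜 m := ⟨_, hV 2 hm⟩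
  have hxyz : x * y = z * z := by
    apply Subtype.ext
    show s ^ (m - 0) * t ^ 0 * (s ^ (m - 2) * t ^ 2) = s ^ (m - 1) * t ^ 1 * (s ^ (m - 1) * t ^ 1)
    obtain ⟨l, rfl⟩ := Nat.exists_eq_add_of_le hm
    have e1 : 2 + l - 0 = l + 2 := by omega
    have e2 : 2 + l - 2 = l := by omega
    have e3 : 2 + l - 1 = l + 1 := by omega
    rw [e1, e2, e3]
    ring
  have harc : ∀ j (hj : j ≤ m), veroneseArc F 𝒜 m K ⟨_, hV j hj⟩ =
      PowerSeries.X ^ m * PowerSeries.C (algebraMap R K (s ^ (m - j) * t ^ j)) := by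
    intro j hj
    exact arck_apply 𝒜 K (hsm j hj)
  have h1 : AlgebraicIndependent k ![algebraMap R K s, algebraMap R K t] := by
    have h2 := algebraicIndependent_map (k := k) K hind
    have h3 : (fun i => algebraMap R K (![s, t] i)) = ![algebraMap R K s, algebraMap R K t] := by
      funext i
      fin_cases i <;> rfl
    rwa [h3] at h2
  have h2 := algebraicIndependent_pow (algebraicIndependent_pow_mul h1 (m - 1))
    (show 0 < m by omega)
  have hcoeff : ∀ j (hj : j ≤ m), PowerSeries.coeff m (veroneseArc F 𝒜 m K ⟨_, hV j hj⟩) =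
      algebraMap R K s ^ (m - j) * algebraMap R K t ^ j := by
    intro j hj
    rw [harc j hj]
    have e := PowerSeries.coeff_X_pow_mul
      (PowerSeries.C (algebraMap R K (s ^ (m - j) * t ^ j))) m 0
    rw [zero_add] at e
    rw [e, PowerSeries.coeff_zero_C, map_mul, map_pow, map_pow]
  have hx1 : PowerSeries.coeff m (veroneseArc F 𝒜 m K x) = algebraMap R K s ^ m := by
    have := hcoeff 0 (by omega)
    rw [this, Nat.sub_zero, pow_zero, mul_one]
  have hz1 : PowerSeries.coeff m (veroneseArc F 𝒜 m K z) =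
      algebraMap R K s ^ (m - 1) * algebraMap R K t := by
    have := hcoeff 1 (by omega)
    rw [this, pow_one]
  refine arc3 (k := k) (K := K) (veroneseArc F 𝒜 m K) m (veroneseArc_const 𝒜 K h0) hxyz
    (le_refl m) (by omega) ?_ ?_ ?_
  · rw [show veroneseArc F 𝒜 m K x = _ from harc 0 (by omega)]
    exact Dvd.intro _ rfl
  · rw [show veroneseArc F 𝒜 m K z = _ from harc 1 (by omega)]
    exact Dvd.intro _ rfl
  · rw [hx1, hz1]
    exact h2

end Veronese

end CdhForms
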