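import Pool.Agent.Work.MP_fc775b_ag.ArcB
import Pool.Agent.Work.MP_fc775b_ag.Cor

/-!
Rank three relations in a graded domain over an algebraically closed field.
-/

namespace CdhForms

universe u

variable {F k R : Type u} [CommRing F] [Field k] [CharZero k] [CommRing R] [IsDomain R]
  [Algebra F k] [Algebra k R] [Algebra F R] [IsScalarTower F k R] (𝒜 : ℕ → Submodule k R)
  [GradedAlgebra 𝒜]

/-- Over an algebraically closed field: no relation `x y = z²` with `x`, `z` of the same low degree
and not proportional. -/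
theorem graded3_closed [IsAlgClosed k] {e : ℕ} (h0 : ∀ a ∈ 𝒜 0, ∃ c : k, algebraMap k R c = a)
    (he : ∀ n, 0 < n → n < e → 𝒜 n = ⊥) {x y z : R} (h : x * y = z * z) {c : ℕ}
    (hx : x ∈ 𝒜 c) (hz : z ∈ 𝒜 c) (hlt : c < 2 * e) (hx0 : x ≠ 0)
    (hne : ∀ κ : k, z ≠ κ • x) :
    ¬ Function.Surjective (toValForm F R 1) := by
  let K := FractionRing R
  have : IsScalarTower F k K := isScalarTower_fractionRing
  have hinj : Function.Injective (algebraMap R K) := IsFractionRing.injective R K
  have hx0' : algebraMap R K x ≠ 0 := by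
    rw [Ne, map_eq_zero_iff _ hinj]; exact hx0
  have htr : ∀ κ : k, algebraMap R K z / algebraMap R K x ≠ algebraMap k K κ := by
    intro κ hκ
    rw [div_eq_iff hx0', IsScalarTower.algebraMap_apply k R K, ← map_mul] at hκ
    apply hne κ
    rw [Algebra.smul_def]
    exact hinj hκ
  have hc : 0 < c := by
    rcases Nat.eq_zero_or_pos c with rfl | hc
    · exfalso
      obtain ⟨c1, h1⟩ := h0 x hx
      obtain ⟨c2, h2⟩ := h0 z hz
      have hc1 : c1 ≠ 0 := by rintro rfl; exact hx0 (by rw [← h1, map_zero])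
      apply hne (c2 / c1)
      rw [Algebra.smul_def, ← h1, ← h2, ← map_mul, div_mul_cancel₀ _ hc1]
    · exact hc
  refine arc3' (k := k) (K := K) (arc (F := F) 𝒜 K) e (arc_const 𝒜 K h0 he) h (le_refl c) hlt
    (dvd_arc 𝒜 hx) (dvd_arc 𝒜 hz) ?_ ?_
  · rw [coeff_arc 𝒜 hx]; exact hx0'
  · rw [coeff_arc 𝒜 hx, coeff_arc 𝒜 hz, ← div_pow]
    intro halg
    have h1 : IsAlgebraic k (algebraMap R K z / algebraMap R K x) := by
      exact halg.of_pow hc
    have h2 : Algebra.IsAlgebraic k
        (IntermediateField.adjoin k {algebraMap R K z / algebraMap R K x}) :=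
      IntermediateField.isAlgebraic_adjoin_simple h1.isIntegral
    have h3 := IntermediateField.eq_bot_of_isAlgClosed_of_isAlgebraic
      (IntermediateField.adjoin k {algebraMap R K z / algebraMap R K x})
    have h4 : algebraMap R K z / algebraMap R K x ∈ (⊥ : IntermediateField k K) := by
      rw [← h3]
      exact IntermediateField.mem_adjoin_simple_self k _
    obtain ⟨κ, hκ⟩ := IntermediateField.mem_bot.mp h4
    exact htr κ hκ.symm

end CdhForms
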