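import Mathlib

/-!
Derivations with prescribed values on algebraically independent elements (characteristic zero).
-/

open scoped TensorProduct IntermediateField.algebraAdjoinAdjoin

namespace CdhForms

universe u

theorem exists_derivation {k K : Type u} [Field k] [CharZero k] [Field K] [Algebra k K]
    {n : ℕ} (v : Fin n → K) (hv : AlgebraicIndependent k v) (g : Fin n → K) :
    ∃ D : Derivation k K K, ∀ i, D (v i) = g i := by
  classical
  have hinj : Function.Injective v := hv.injective
  obtain ⟨t, ht, hB⟩ := exists_isTranscendenceBasis_superset (R := k) (A := K)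
    (s := Set.range v) hv.to_subtype_range
  set x : t → K := ((↑) : t → K) with hx
  have halg : Algebra.IsAlgebraic (IntermediateField.adjoin k (Set.range x)) K :=
    hB.isAlgebraic_field
  haveI : CharZero (IntermediateField.adjoin k (Set.range x)) :=
    charZero_of_injective_algebraMap (algebraMap k _).injective
  haveI : Algebra.IsSeparable (IntermediateField.adjoin k (Set.range x)) K := inferInstance
  have h1 : Algebra.FormallyEtale (IntermediateField.adjoin k (Set.range x)) K :=
    Algebra.FormallyEtale.of_isSeparable _ K
  have h2 : Algebra.FormallyEtale (Algebra.adjoin k (Set.range x))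
      (IntermediateField.adjoin k (Set.range x)) :=
    Algebra.FormallyEtale.of_isLocalization (nonZeroDivisors _)
  have h3 : Algebra.FormallyEtale (Algebra.adjoin k (Set.range x)) K :=
    Algebra.FormallyEtale.comp _ (IntermediateField.adjoin k (Set.range x)) _
  let e := hB.1.aevalEquiv
  let g' : t → K := fun y => if h : ∃ i, v i = (y : K) then g h.choose else 0
  letI : Algebra (MvPolynomial t k) K := (MvPolynomial.aeval (R := k) x).toRingHom.toAlgebra
  haveI : IsScalarTower k (MvPolynomial t k) K :=
    IsScalarTower.of_algebraMap_eq' (MvPolynomial.aeval (R := k) x).comp_algebraMap.symm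
  let D1 : Derivation k (MvPolynomial t k) K := MvPolynomial.mkDerivation k g'
  let D0 : Derivation k (Algebra.adjoin k (Set.range x)) K :=
    { toLinearMap := D1.toLinearMap ∘ₗ (e.symm.toLinearMap)
      map_one_eq_zero' := by simp
      leibniz' := by
        intro a b
        have hsm : ∀ (p : Algebra.adjoin k (Set.range x)) (c : K), e.symm p • c = p • c := by
          intro p c
          obtain ⟨q, rfl⟩ := e.surjective p
          rw [e.symm_apply_apply]
          rw [Algebra.smul_def, Algebra.smul_def]
          congr 1
        simp only [LinearMap.comp_apply, AlgEquiv.toLinearMap_apply, map_mul,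
          Derivation.coeFn_coe, Derivation.leibniz, hsm] }
  let lam := (D0.liftKaehlerDifferential.liftBaseChange K) ∘ₗ
    (KaehlerDifferential.tensorKaehlerEquivOfFormallyEtale k
      (Algebra.adjoin k (Set.range x)) K).symm.toLinearMap
  refine ⟨lam.compDer (KaehlerDifferential.D k K), fun i => ?_⟩
  have hmem : v i ∈ t := ht ⟨i, rfl⟩
  let y : t := ⟨v i, hmem⟩
  have hy : algebraMap (Algebra.adjoin k (Set.range x)) K (e (MvPolynomial.X y)) = v i := by
    rw [AlgebraicIndependent.algebraMap_aevalEquiv]
    simp [y, hx]
  have hg : g' y = g i := by
    have hex : ∃ j, v j = (y : K) := ⟨i, rfl⟩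
    simp only [g', dif_pos hex]
    exact congrArg g (hinj hex.choose_spec)
  rw [← hy]
  have := KaehlerDifferential.tensorKaehlerEquivOfFormallyEtale_symm_D_algebraMap k
      (Algebra.adjoin k (Set.range x)) K (e (MvPolynomial.X y))
  change (D0.liftKaehlerDifferential.liftBaseChange K)
    ((KaehlerDifferential.tensorKaehlerEquivOfFormallyEtale k
      (Algebra.adjoin k (Set.range x)) K).symm (KaehlerDifferential.D k K
        (algebraMap (Algebra.adjoin k (Set.range x)) K (e (MvPolynomial.X y))))) = g i
  rw [this, LinearMap.liftBaseChange_tmul, one_smul, Derivation.liftKaehlerDifferential_comp_D]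
  change D1 (e.symm (e (MvPolynomial.X y))) = g i
  rw [e.symm_apply_apply, MvPolynomial.mkDerivation_X, hg]

end CdhForms
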