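import Pool.Agent.Work.MP_fc775b_ag.Val
import Pool.Agent.Work.MP_fc775b_ag.Deriv

/-!
Arcs: homomorphisms `R → K⟦X⟧` with constant terms in a subfield `k`.
-/

open scoped TensorProduct PowerSeries
open PowerSeries

namespace CdhForms

universe u

noncomputable section

/-- All values of `φ : R → K⟦X⟧` are constants from `k` modulo `X ^ e`. -/
def ConstMod (k : Type u) {F R K : Type u} [CommRing F] [CommRing R] [Algebra F R] [Field k]
    [Field K] [Algebra F K] [Algebra k K] (φ : R →ₐ[F] K⟦X⟧) (e : ℕ) : Prop :=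
  ∀ r, ∃ c : k, (X : K⟦X⟧) ^ e ∣ φ r - C (algebraMap k K c)

section eval
variable {F O : Type u} [CommRing F] [CommRing O] [Algebra F O]

/-- Evaluation of a `2`-form at two derivations. -/
def ev2 (E₁ E₂ : Derivation F O O) : Form F O 2 →ₗ[O] O :=
  exteriorPower.pairingDual O (Ω[O⁄F]) 2
    (exteriorPower.ιMulti O 2 ![E₁.liftKaehlerDifferential, E₂.liftKaehlerDifferential])

theorem ev2_wedge (E₁ E₂ : Derivation F O O) (a b : Ω[O⁄F]) :
    ev2 E₁ E₂ (wedge a b) = E₁.liftKaehlerDifferential a * E₂.liftKaehlerDifferential b -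
      E₂.liftKaehlerDifferential a * E₁.liftKaehlerDifferential b := by
  rw [ev2, wedge, exteriorPower.pairingDual_ιMulti_ιMulti, Matrix.det_fin_two]
  simp

/-- Evaluation of a `1`-form at a derivation. -/
def ev1 (E₁ : Derivation F O O) : Form F O 1 →ₗ[O] O :=
  exteriorPower.pairingDual O (Ω[O⁄F]) 1
    (exteriorPower.ιMulti O 1 ![E₁.liftKaehlerDifferential])

theorem ev1_one (E₁ : Derivation F O O) (a : Ω[O⁄F]) :
    ev1 E₁ (one a) = E₁.liftKaehlerDifferential a := by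
  rw [ev1, one, exteriorPower.pairingDual_ιMulti_ιMulti, Matrix.det_fin_one]
  simp

end eval

section power
variable {F K : Type u} [CommRing F] [Field K] [Algebra F K]

/-- The derivation of `K⟦X⟧` acting by `δ n` on the `n`-th coefficient. -/
def mkDer (δ : ℕ → K →ₗ[F] K) (hδ : ∀ i j a b, δ (i + j) (a * b) = a * δ j b + b * δ i a) :
    Derivation F K⟦X⟧ K⟦X⟧ where
  toLinearMap :=
    { toFun := fun f => PowerSeries.mk fun n => δ n (coeff n f)
      map_add' := by intro f g; ext n; simp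
      map_smul' := by
        intro c f
        ext n
        have : coeff n (c • f) = c • coeff n f := by
          rw [Algebra.smul_def, Algebra.smul_def, PowerSeries.algebraMap_apply, coeff_C_mul]
        have h2 : ∀ g : K⟦X⟧, coeff n (c • g) = c • coeff n g := by
          intro g
          rw [Algebra.smul_def, Algebra.smul_def, PowerSeries.algebraMap_apply, coeff_C_mul]
        simp only [RingHom.id_apply, coeff_mk, h2, map_smul] }
  map_one_eq_zero' := by
    ext n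
    simp only [LinearMap.coe_mk, AddHom.coe_mk, coeff_mk, coeff_one, map_zero]
    split_ifs with h
    · subst h
      have := hδ 0 0 1 1
      simpa using this
    · simp
  leibniz' := by
    intro f g
    ext n
    simp only [LinearMap.coe_mk, AddHom.coe_mk, coeff_mk, smul_eq_mul, map_add, coeff_mul, map_sum]
    rw [← Finset.Nat.sum_antidiagonal_swap (f := fun p : ℕ × ℕ => coeff p.1 g * _),
      ← Finset.sum_add_distrib]
    refine Finset.sum_congr rfl fun p hp => ?_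
    rw [← Finset.HasAntidiagonal.mem_antidiagonal.mp hp, hδ]
    rfl

theorem coeff_mkDer (δ : ℕ → K →ₗ[F] K) (hδ : ∀ i j a b, δ (i + j) (a * b) = a * δ j b + b * δ i a)
    (f : K⟦X⟧) (n : ℕ) : coeff n (mkDer δ hδ f) = δ n (coeff n f) := by
  simp [mkDer]

end power

variable {F k K R : Type u} [CommRing F] [Field k] [CharZero k] [Field K] [Algebra F k]
  [Algebra F K] [Algebra k K] [IsScalarTower F k K] [CommRing R] [Algebra F R]

/-- The Euler derivation `X d/dX`. -/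
def Eu (F K : Type u) [CommRing F] [Field K] [Algebra F K] : Derivation F K⟦X⟧ K⟦X⟧ :=
  mkDer (fun n => n • LinearMap.id) (by
    intro i j a b
    change (i + j) • (a * b) = a * (j • b) + b * (i • a)
    simp only [nsmul_eq_mul, Nat.cast_add]
    ring)

theorem coeff_Eu {F K : Type u} [CommRing F] [Field K] [Algebra F K] (f : K⟦X⟧) (n : ℕ) :
    coeff n (Eu F K f) = n * coeff n f := by
  rw [Eu, coeff_mkDer]
  change n • coeff n f = _
  rw [nsmul_eq_mul]

/-- The coefficientwise extension of a derivation of `K`. -/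
def Dt (F : Type u) {k K : Type u} [CommRing F] [Field k] [Field K] [Algebra F k]
    [Algebra F K] [Algebra k K] [IsScalarTower F k K] (D : Derivation k K K) :
    Derivation F K⟦X⟧ K⟦X⟧ :=
  mkDer (fun _ => (D.toLinearMap.restrictScalars F)) (by
    intro i j a b
    simp)

omit [CharZero k] in
theorem coeff_Dt (D : Derivation k K K) (f : K⟦X⟧) (n : ℕ) :
    coeff n (Dt F D f) = D (coeff n f) := by
  rw [Dt, coeff_mkDer]
  rfl

/-- Leading coefficients multiply. -/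
theorem coeff_mul_lead {i j : ℕ} {f g : K⟦X⟧} (hf : X ^ i ∣ f) (hg : X ^ j ∣ g) :
    coeff (i + j) (f * g) = coeff i f * coeff j g := by
  obtain ⟨f, rfl⟩ := hf
  obtain ⟨g, rfl⟩ := hg
  have e : (X : K⟦X⟧) ^ i * f * (X ^ j * g) = X ^ (i + j) * (f * g) := by ring
  have h1 := coeff_X_pow_mul (f * g) (i + j) 0
  have h2 := coeff_X_pow_mul f i 0
  have h3 := coeff_X_pow_mul g j 0
  simp only [zero_add] at h1 h2 h3
  rw [e, h1, h2, h3]
  simp

theorem X_pow_dvd_mkDer {i : ℕ} {f : K⟦X⟧} (hf : X ^ i ∣ f) (δ : ℕ → K →ₗ[F] K)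
    (hδ : ∀ i j a b, δ (i + j) (a * b) = a * δ j b + b * δ i a) : X ^ i ∣ mkDer δ hδ f := by
  rw [X_pow_dvd_iff] at hf ⊢
  intro n hn
  rw [coeff_mkDer, hf n hn, map_zero]

/-- In low weight only the constant term of the coefficient contributes. -/
theorem coeff_low {e m : ℕ} (hm : m < 3 * e) {c U V : K⟦X⟧} {c0 : K} (hc : X ^ e ∣ c - C c0)
    (hU : X ^ e ∣ U) (hV : X ^ e ∣ V) : coeff m (c * (U * V)) = c0 * coeff m (U * V) := by
  obtain ⟨q, hq⟩ := hc
  obtain ⟨U', hU'⟩ := hU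
  obtain ⟨V', hV'⟩ := hV
  have e1 : c * (U * V) = C c0 * (U * V) + X ^ (3 * e) * (q * (U' * V')) := by
    have : c = C c0 + X ^ e * q := by rw [← hq]; ring
    rw [this, hU', hV']; ring
  rw [e1, map_add, coeff_C_mul, coeff_X_pow_mul', if_neg (by omega), add_zero]

theorem coeff_low1 {e m : ℕ} (hm : m < 2 * e) {c U : K⟦X⟧} {c0 : K} (hc : X ^ e ∣ c - C c0)
    (hU : X ^ e ∣ U) : coeff m (c * U) = c0 * coeff m U := by
  obtain ⟨q, hq⟩ := hc
  obtain ⟨U', hU'⟩ := hU
  have e1 : c * U = C c0 * U + X ^ (2 * e) * (q * U') := by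
    have : c = C c0 + X ^ e * q := by rw [← hq]; ring
    rw [this, hU']; ring
  rw [e1, map_add, coeff_C_mul, coeff_X_pow_mul', if_neg (by omega), add_zero]

omit [CharZero k] [Algebra F k] [IsScalarTower F k K] in
theorem dvd_mkDer_phi (φ : R →ₐ[F] K⟦X⟧) {e : ℕ} (hφ : ConstMod k φ e) (δ : ℕ → K →ₗ[F] K)
    (hδ : ∀ i j a b, δ (i + j) (a * b) = a * δ j b + b * δ i a)
    (h0 : ∀ c : k, δ 0 (algebraMap k K c) = 0) (r : R) : X ^ e ∣ mkDer δ hδ (φ r) := by
  obtain ⟨c, hc⟩ := hφ r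
  have e1 : mkDer δ hδ (C (algebraMap k K c)) = 0 := by
    ext n
    rw [coeff_mkDer, coeff_C]
    split_ifs with h
    · rw [h, h0]; simp
    · simp
  have e2 : mkDer δ hδ (φ r) = mkDer δ hδ (φ r - C (algebraMap k K c)) := by
    rw [map_sub, e1, sub_zero]
  rw [e2]
  exact X_pow_dvd_mkDer hc δ hδ

omit [CharZero k] [Algebra F k] [IsScalarTower F k K] in
theorem T_gen (φ : R →ₐ[F] K⟦X⟧) {e : ℕ} (hφ : ConstMod k φ e) {m : ℕ} (hm : m < 3 * e)
    (δ₁ δ₂ : ℕ → K →ₗ[F] K) (h₁ : ∀ i j a b, δ₁ (i + j) (a * b) = a * δ₁ j b + b * δ₁ i a)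
    (h₂ : ∀ i j a b, δ₂ (i + j) (a * b) = a * δ₂ j b + b * δ₂ i a)
    (k₁ : ∀ c : k, δ₁ 0 (algebraMap k K c) = 0) (k₂ : ∀ c : k, δ₂ 0 (algebraMap k K c) = 0)
    (c : R) (b : Fin 2 → R) {c0 : k} (hc : X ^ e ∣ φ c - C (algebraMap k K c0)) :
    coeff m (ev2 (mkDer δ₁ h₁) (mkDer δ₂ h₂)
      (pull φ 2 (c • exteriorPower.ιMulti R 2 (fun i => KaehlerDifferential.D F R (b i))))) =
    algebraMap k K c0 * ∑ p ∈ Finset.HasAntidiagonal.antidiagonal m,
      (δ₁ p.1 (coeff p.1 (φ (b 0))) * δ₂ p.2 (coeff p.2 (φ (b 1))) -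
        δ₂ p.1 (coeff p.1 (φ (b 0))) * δ₁ p.2 (coeff p.2 (φ (b 1)))) := by
  rw [pull_gen]
  have e1 : (fun i => KaehlerDifferential.D F K⟦X⟧ (φ (b i))) =
      ![KaehlerDifferential.D F K⟦X⟧ (φ (b 0)), KaehlerDifferential.D F K⟦X⟧ (φ (b 1))] := by
    funext i; fin_cases i <;> rfl
  rw [e1, map_smul]
  change coeff m (φ c • ev2 _ _ (wedge _ _)) = _
  rw [ev2_wedge]
  simp only [Derivation.liftKaehlerDifferential_comp_D, smul_eq_mul, mul_sub, map_sub]
  rw [coeff_low hm hc (dvd_mkDer_phi φ hφ δ₁ h₁ k₁ _) (dvd_mkDer_phi φ hφ δ₂ h₂ k₂ _),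
    coeff_low hm hc (dvd_mkDer_phi φ hφ δ₂ h₂ k₂ _) (dvd_mkDer_phi φ hφ δ₁ h₁ k₁ _),
    coeff_mul, coeff_mul, ← mul_sub, ← Finset.sum_sub_distrib]
  simp only [coeff_mkDer]

omit [CharZero k] [Algebra F k] [IsScalarTower F k K] in
theorem T1_gen (φ : R →ₐ[F] K⟦X⟧) {e : ℕ} (hφ : ConstMod k φ e) {m : ℕ} (hm : m < 2 * e)
    (δ : ℕ → K →ₗ[F] K) (h : ∀ i j a b, δ (i + j) (a * b) = a * δ j b + b * δ i a)
    (k₁ : ∀ c : k, δ 0 (algebraMap k K c) = 0)
    (c : R) (b : Fin 1 → R) {c0 : k} (hc : X ^ e ∣ φ c - C (algebraMap k K c0)) :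
    coeff m (ev1 (mkDer δ h)
      (pull φ 1 (c • exteriorPower.ιMulti R 1 (fun i => KaehlerDifferential.D F R (b i))))) =
    algebraMap k K c0 * δ m (coeff m (φ (b 0))) := by
  rw [pull_gen]
  have e1 : (fun i => KaehlerDifferential.D F K⟦X⟧ (φ (b i))) =
      ![KaehlerDifferential.D F K⟦X⟧ (φ (b 0))] := by
    funext i; fin_cases i; rfl
  rw [e1, map_smul]
  change coeff m (φ c • ev1 _ (one _)) = _
  rw [ev1_one]
  simp only [Derivation.liftKaehlerDifferential_comp_D, smul_eq_mul]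
  rw [coeff_low1 hm hc (dvd_mkDer_phi φ hφ δ h k₁ _), coeff_mkDer]

omit [CharZero k] in
theorem key_sum (D₁ D₂ : Derivation k K K) (c0 : k) (m : ℕ) (f g : ℕ → K) :
    D₁ (algebraMap k K c0 * ∑ p ∈ Finset.HasAntidiagonal.antidiagonal m,
        ((p.1 : K) * f p.1 * D₂ (g p.2) - D₂ (f p.1) * ((p.2 : K) * g p.2))) -
      D₂ (algebraMap k K c0 * ∑ p ∈ Finset.HasAntidiagonal.antidiagonal m,
        ((p.1 : K) * f p.1 * D₁ (g p.2) - D₁ (f p.1) * ((p.2 : K) * g p.2))) -
      algebraMap k K c0 * ∑ p ∈ Finset.HasAntidiagonal.antidiagonal m,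
        ((p.1 : K) * f p.1 * ⁅D₁, D₂⁆ (g p.2) - ⁅D₁, D₂⁆ (f p.1) * ((p.2 : K) * g p.2)) =
    m * (algebraMap k K c0 * ∑ p ∈ Finset.HasAntidiagonal.antidiagonal m,
        (D₁ (f p.1) * D₂ (g p.2) - D₂ (f p.1) * D₁ (g p.2))) := by
  have hl : ∀ (D : Derivation k K K) (S : K), D (algebraMap k K c0 * S) =
      algebraMap k K c0 * D S := by
    intro D S
    rw [← Algebra.smul_def, D.map_smul, Algebra.smul_def]
  rw [hl, hl, map_sum, map_sum, ← mul_sub, ← mul_sub, ← Finset.sum_sub_distrib,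
    ← Finset.sum_sub_distrib, mul_left_comm, Finset.mul_sum (a := (m : K))]
  congr 1
  refine Finset.sum_congr rfl fun p hp => ?_
  have hm : (m : K) = (p.1 : K) + (p.2 : K) := by
    rw [← Finset.HasAntidiagonal.mem_antidiagonal.mp hp]; push_cast; rfl
  rw [hm]
  simp only [map_sub, Derivation.leibniz, Derivation.map_natCast, smul_eq_mul, mul_zero, add_zero,
    Derivation.commutator_apply]
  ring

omit [CharZero k] in
/-- Kaehler `2`-forms are closed in low weight. -/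
theorem T_identity (φ : R →ₐ[F] K⟦X⟧) {e : ℕ} (hφ : ConstMod k φ e) {m : ℕ} (hm : m < 3 * e)
    (D₁ D₂ : Derivation k K K) (η : Form F R 2) :
    D₁ (coeff m (ev2 (Eu F K) (Dt F D₂) (pull φ 2 η))) -
      D₂ (coeff m (ev2 (Eu F K) (Dt F D₁) (pull φ 2 η))) -
      coeff m (ev2 (Eu F K) (Dt F ⁅D₁, D₂⁆) (pull φ 2 η)) =
    m * coeff m (ev2 (Dt F D₁) (Dt F D₂) (pull φ 2 η)) := by
  induction η using form_induction with
  | h0 => simp
  | hadd a b ha hb =>
    simp only [map_add]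
    linear_combination ha + hb
  | hgen c b =>
    obtain ⟨c0, hc⟩ := hφ c
    have hE : ∀ D : Derivation k K K, coeff m (ev2 (Eu F K) (Dt F D)
        (pull φ 2 (c • exteriorPower.ιMulti R 2 (fun i => KaehlerDifferential.D F R (b i))))) =
        algebraMap k K c0 * ∑ p ∈ Finset.HasAntidiagonal.antidiagonal m,
        ((p.1 : K) * coeff p.1 (φ (b 0)) * D (coeff p.2 (φ (b 1))) -
          D (coeff p.1 (φ (b 0))) * ((p.2 : K) * coeff p.2 (φ (b 1)))) := by
      intro D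
      refine (T_gen φ hφ hm _ _ _ _ (fun c => ?_) (fun c => ?_) c b hc).trans ?_
      · simp
      · simp
      · congr 1
        refine Finset.sum_congr rfl fun p hp => ?_
        change (p.1 • coeff p.1 (φ (b 0))) * D _ - D _ * (p.2 • coeff p.2 (φ (b 1))) = _
        rw [nsmul_eq_mul, nsmul_eq_mul]
    have hD : coeff m (ev2 (Dt F D₁) (Dt F D₂)
        (pull φ 2 (c • exteriorPower.ιMulti R 2 (fun i => KaehlerDifferential.D F R (b i))))) =
        algebraMap k K c0 * ∑ p ∈ Finset.HasAntidiagonal.antidiagonal m,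
        (D₁ (coeff p.1 (φ (b 0))) * D₂ (coeff p.2 (φ (b 1))) -
          D₂ (coeff p.1 (φ (b 0))) * D₁ (coeff p.2 (φ (b 1)))) := by
      refine (T_gen φ hφ hm _ _ _ _ (fun c => ?_) (fun c => ?_) c b hc).trans ?_
      · simp
      · simp
      · rfl
    rw [hE, hE, hE, hD]
    exact key_sum D₁ D₂ c0 m (fun n => coeff n (φ (b 0))) (fun n => coeff n (φ (b 1)))

omit [CharZero k] in
/-- Kaehler `1`-forms are closed in low weight. -/
theorem T1_identity (φ : R →ₐ[F] K⟦X⟧) {e : ℕ} (hφ : ConstMod k φ e) {m : ℕ} (hm : m < 2 * e)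
    (D : Derivation k K K) (η : Form F R 1) :
    D (coeff m (ev1 (Eu F K) (pull φ 1 η))) = m * coeff m (ev1 (Dt F D) (pull φ 1 η)) := by
  induction η using form_induction with
  | h0 => simp
  | hadd a b ha hb =>
    simp only [map_add]
    linear_combination ha + hb
  | hgen c b =>
    obtain ⟨c0, hc⟩ := hφ c
    have hE : coeff m (ev1 (Eu F K)
        (pull φ 1 (c • exteriorPower.ιMulti R 1 (fun i => KaehlerDifferential.D F R (b i))))) =
        algebraMap k K c0 * (m * coeff m (φ (b 0))) := by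
      refine (T1_gen φ hφ hm _ _ (fun c => ?_) c b hc).trans ?_
      · simp
      · congr 1
        change m • coeff m (φ (b 0)) = _
        rw [nsmul_eq_mul]
    have hD : coeff m (ev1 (Dt F D)
        (pull φ 1 (c • exteriorPower.ιMulti R 1 (fun i => KaehlerDifferential.D F R (b i))))) =
        algebraMap k K c0 * D (coeff m (φ (b 0))) := by
      refine (T1_gen φ hφ hm _ _ (fun c => ?_) c b hc).trans ?_
      · simp
      · rfl
    have hl : ∀ (S : K), D (algebraMap k K c0 * S) = algebraMap k K c0 * D S := by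
      intro S
      rw [← Algebra.smul_def, D.map_smul, Algebra.smul_def]
    rw [hE, hD, hl]
    simp only [Derivation.leibniz, Derivation.map_natCast, smul_eq_mul, mul_zero, add_zero]
    ring

/-- Division by a series with invertible leading coefficient. -/
theorem exists_div {a c : ℕ} (hac : a ≤ c) {f g : K⟦X⟧} (hf : X ^ a ∣ f) (hg : X ^ c ∣ g)
    (h0 : coeff a f ≠ 0) :
    ∃ q : K⟦X⟧, g = f * q ∧ X ^ (c - a) ∣ q ∧ coeff (c - a) q = coeff c g / coeff a f := by
  obtain ⟨f', rfl⟩ := hf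
  obtain ⟨g', rfl⟩ := hg
  have h2 := coeff_X_pow_mul f' a 0
  have h3 := coeff_X_pow_mul g' c 0
  simp only [zero_add, coeff_zero_eq_constantCoeff_apply] at h2 h3
  rw [h2] at h0
  refine ⟨X ^ (c - a) * (g' * f'⁻¹), ?_, ⟨_, rfl⟩, ?_⟩
  · have e1 : (X : K⟦X⟧) ^ c = X ^ a * X ^ (c - a) := by rw [← pow_add]; congr 1; omega
    have e2 : f' * f'⁻¹ = 1 := PowerSeries.mul_inv_cancel _ h0
    rw [e1]
    linear_combination (-(X ^ a * X ^ (c - a) * g')) * e2
  · have h4 := coeff_X_pow_mul (g' * f'⁻¹) (c - a) 0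
    simp only [zero_add, coeff_zero_eq_constantCoeff_apply] at h4
    rw [h4, h2, h3, map_mul, constantCoeff_inv, div_eq_mul_inv]

omit [CharZero k] in
theorem Dt_D (D : Derivation k K K) (f : K⟦X⟧) :
    (Dt F D).liftKaehlerDifferential (KaehlerDifferential.D F K⟦X⟧ f) = Dt F D f :=
  Derivation.liftKaehlerDifferential_comp_D _ _

theorem Eu_D {F K : Type u} [CommRing F] [Field K] [Algebra F K] (f : K⟦X⟧) :
    (Eu F K).liftKaehlerDifferential (KaehlerDifferential.D F K⟦X⟧ f) = Eu F K f :=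
  Derivation.liftKaehlerDifferential_comp_D _ _

theorem wr_one {F O : Type u} [CommRing F] [CommRing O] [Algebra F O] (q : O) :
    wr F ![1, q] = KaehlerDifferential.D F O q := by
  simp [wr]

omit [CharZero k] [Algebra F k] [IsScalarTower F k K] in
/-- An algebraically independent leading coefficient is not a constant term. -/
theorem order_ne_zero (φ : R →ₐ[F] K⟦X⟧) {e : ℕ} (he : 0 < e) (hφ : ConstMod k φ e) {x : R}
    (D : Derivation k K K) (hD : D (coeff 0 (φ x)) = 1) : False := by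
  obtain ⟨c, hc⟩ := hφ x
  rw [X_pow_dvd_iff] at hc
  have h0 := hc 0 he
  rw [map_sub, coeff_zero_C, sub_eq_zero] at h0
  rw [h0, D.map_algebraMap] at hD
  exact zero_ne_one hD

/-- The value of the `2`-form attached to `x y = z w` at two derivations, lowest coefficient. -/
theorem T_form4 {F K R : Type u} [CommRing F] [Field K] [Algebra F K]
    [CommRing R] [Algebra F R] (φ : R →ₐ[F] K⟦X⟧) {x y z w : R} (h : x * y = z * w)
    {a c d : ℕ} (hac : a ≤ c) (had : a ≤ d) (hx : X ^ a ∣ φ x) (hx0 : coeff a (φ x) ≠ 0)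
    {A B : K⟦X⟧} (hA : φ w = φ x * A) (hAd : X ^ (d - a) ∣ A) (hB : φ z = φ x * B)
    (hBd : X ^ (c - a) ∣ B) (δ₁ δ₂ : ℕ → K →ₗ[F] K)
    (h₁ : ∀ i j a b, δ₁ (i + j) (a * b) = a * δ₁ j b + b * δ₁ i a)
    (h₂ : ∀ i j a b, δ₂ (i + j) (a * b) = a * δ₂ j b + b * δ₂ i a) :
    coeff (c + d) (ev2 (mkDer δ₁ h₁) (mkDer δ₂ h₂) ((form4 F h).val K⟦X⟧ φ)) =
      coeff a (φ x) ^ 2 * (δ₁ (d - a) (coeff (d - a) A) * δ₂ (c - a) (coeff (c - a) B) -
        δ₂ (d - a) (coeff (d - a) A) * δ₁ (c - a) (coeff (c - a) B)) := by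
  have hφx : φ x ≠ 0 := by
    intro h0; rw [h0, map_zero] at hx0; exact hx0 rfl
  have hy : φ y = φ x * A * B := by
    apply mul_left_cancel₀ hφx
    rw [← map_mul, h, map_mul, hA, hB]; ring
  have hfac : Fac (mat (φ x) (φ y) (φ z) (φ w)) ![φ x * 1, φ x * A] ![1, B] := by
    intro i j
    fin_cases i <;> fin_cases j <;> simp [mat, hy, hA, hB]
  have e1 : wr F ![φ x * 1, φ x * A] = φ x ^ 2 • wr F ![1, A] := by
    apply wr_smul
    intro i
    fin_cases i <;> rfl
  rw [form4_val h φ hfac, e1, wr_one, wr_one, wedge_smul_left, map_smul, ev2_wedge]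
  simp only [Derivation.liftKaehlerDifferential_comp_D, smul_eq_mul, mul_sub, map_sub]
  have hsum : c + d = (a + a) + ((d - a) + (c - a)) := by omega
  have hxx : X ^ (a + a) ∣ φ x ^ 2 := by
    rw [pow_add, pow_two]; exact mul_dvd_mul hx hx
  have key : ∀ (δ ε : ℕ → K →ₗ[F] K)
      (hδ : ∀ i j a b, δ (i + j) (a * b) = a * δ j b + b * δ i a)
      (hε : ∀ i j a b, ε (i + j) (a * b) = a * ε j b + b * ε i a),
      coeff (c + d) (φ x ^ 2 * (mkDer δ hδ A * mkDer ε hε B)) =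
        coeff a (φ x) ^ 2 * (δ (d - a) (coeff (d - a) A) * ε (c - a) (coeff (c - a) B)) := by
    intro δ ε hδ hε
    have d1 := X_pow_dvd_mkDer hAd δ hδ
    have d2 := X_pow_dvd_mkDer hBd ε hε
    have d3 : X ^ ((d - a) + (c - a)) ∣ mkDer δ hδ A * mkDer ε hε B := by
      rw [pow_add]; exact mul_dvd_mul d1 d2
    rw [hsum, coeff_mul_lead hxx d3, coeff_mul_lead d1 d2, pow_two, coeff_mul_lead hx hx,
      coeff_mkDer, coeff_mkDer, pow_two]
  rw [key, key]

theorem arc4 (φ : R →ₐ[F] K⟦X⟧) (e : ℕ) (hφ : ConstMod k φ e) {x y z w : R}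
    (h : x * y = z * w) {a c d : ℕ} (hac : a ≤ c) (had : a ≤ d) (hlt : c + d < 3 * e)
    (hx : X ^ a ∣ φ x) (hz : X ^ c ∣ φ z) (hw : X ^ d ∣ φ w)
    (hind : AlgebraicIndependent k ![coeff a (φ x), coeff c (φ z), coeff d (φ w)]) :
    ¬ Function.Surjective (toValForm F R 2) := by
  intro hsurj
  have : CharZero K := charZero_of_injective_algebraMap (algebraMap k K).injective
  obtain ⟨η, hη⟩ := hsurj (form4 F h)
  have hpull : pull φ 2 η = (form4 F h).val K⟦X⟧ φ :=
    congrArg (fun ω : ValForm F R 2 => ω.val K⟦X⟧ φ) hη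
  -- the leading coefficients
  obtain ⟨D₁, hD₁⟩ := exists_derivation _ hind ![0, 0, coeff a (φ x)]
  obtain ⟨D₂, hD₂⟩ := exists_derivation _ hind ![0, coeff a (φ x), 0]
  obtain ⟨D₃, hD₃⟩ := exists_derivation _ hind ![1, 0, 0]
  have hx0' : coeff a (φ x) ≠ 0 := hind.ne_zero 0
  have a1 : D₁ (coeff a (φ x)) = 0 := hD₁ 0
  have a2 : D₁ (coeff c (φ z)) = 0 := hD₁ 1
  have a3 : D₁ (coeff d (φ w)) = coeff a (φ x) := hD₁ 2
  have b1 : D₂ (coeff a (φ x)) = 0 := hD₂ 0
  have b2 : D₂ (coeff c (φ z)) = coeff a (φ x) := hD₂ 1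
  have b3 : D₂ (coeff d (φ w)) = 0 := hD₂ 2
  have c1 : D₃ (coeff a (φ x)) = 1 := hD₃ 0
  obtain ⟨A, hA, hAd, hAc⟩ := exists_div had hx hw hx0'
  obtain ⟨B, hB, hBd, hBc⟩ := exists_div hac hx hz hx0'
  have ha : a ≠ 0 := by
    rintro rfl
    exact order_ne_zero φ (by omega) hφ D₃ c1
  have hId := T_identity φ hφ hlt D₁ D₂ η
  rw [hpull] at hId
  have tE : ∀ D : Derivation k K K,
      coeff (c + d) (ev2 (Eu F K) (Dt F D) ((form4 F h).val K⟦X⟧ φ)) =
      coeff a (φ x) ^ 2 * (((d - a : ℕ) : K) * coeff (d - a) A * D (coeff (c - a) B) -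
        D (coeff (d - a) A) * (((c - a : ℕ) : K) * coeff (c - a) B)) := by
    intro D
    refine (T_form4 φ h hac had hx hx0' hA hAd hB hBd _ _ _ _).trans ?_
    change _ * ((d - a) • coeff (d - a) A * D _ - D _ * ((c - a) • coeff (c - a) B)) = _
    rw [nsmul_eq_mul, nsmul_eq_mul]
  have tD : coeff (c + d) (ev2 (Dt F D₁) (Dt F D₂) ((form4 F h).val K⟦X⟧ φ)) =
      coeff a (φ x) ^ 2 * (D₁ (coeff (d - a) A) * D₂ (coeff (c - a) B) -
        D₂ (coeff (d - a) A) * D₁ (coeff (c - a) B)) :=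
    T_form4 φ h hac had hx hx0' hA hAd hB hBd _ _ _ _
  have hdiv : ∀ (D : Derivation k K K) (u : K), D (coeff a (φ x)) = 0 →
      D (u / coeff a (φ x)) = D u / coeff a (φ x) := by
    intro D u h0
    rw [Derivation.leibniz_div, h0]
    simp only [smul_eq_mul, mul_zero, sub_zero]
    field_simp
  have p1 : D₁ (coeff (d - a) A) = 1 := by rw [hAc, hdiv _ _ a1, a3, div_self hx0']
  have p2 : D₂ (coeff (d - a) A) = 0 := by rw [hAc, hdiv _ _ b1, b3, zero_div]
  have p3 : D₁ (coeff (c - a) B) = 0 := by rw [hBc, hdiv _ _ a1, a2, zero_div]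
  have p4 : D₂ (coeff (c - a) B) = 1 := by rw [hBc, hdiv _ _ b1, b2, div_self hx0']
  have p5 : ⁅D₁, D₂⁆ (coeff (d - a) A) = 0 := by
    rw [Derivation.commutator_apply, p2, p1]; simp
  have p6 : ⁅D₁, D₂⁆ (coeff (c - a) B) = 0 := by
    rw [Derivation.commutator_apply, p4, p3]; simp
  rw [tE, tE, tE, tD, p1, p2, p3, p4, p5, p6] at hId
  simp only [Derivation.leibniz, Derivation.map_natCast, Derivation.leibniz_pow, map_sub, a1, b1,
    p1, p4, smul_eq_mul, mul_zero, mul_one, zero_mul, sub_zero, zero_sub, add_zero, map_neg,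
    smul_zero, map_zero, mul_neg, neg_mul, one_mul] at hId
  rw [Nat.cast_sub had, Nat.cast_sub hac, Nat.cast_add] at hId
  have h2 : (2 * a : K) * coeff a (φ x) ^ 2 = 0 := by linear_combination -hId
  have h3 : (a : K) ≠ 0 := Nat.cast_ne_zero.mpr ha
  have h4 : (2 * a : K) * coeff a (φ x) ^ 2 ≠ 0 :=
    mul_ne_zero (mul_ne_zero two_ne_zero h3) (pow_ne_zero 2 hx0')
  exact h4 h2

/-- The value of the `1`-form attached to `x y = z²` at a derivation, lowest coefficient. -/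
theorem T_form3 {F K R : Type u} [CommRing F] [Field K] [Algebra F K]
    [CommRing R] [Algebra F R] (φ : R →ₐ[F] K⟦X⟧) {x y z : R} (h : x * y = z * z)
    {a c : ℕ} (hac : a ≤ c) (hx : X ^ a ∣ φ x) (hx0 : coeff a (φ x) ≠ 0)
    {B : K⟦X⟧} (hB : φ z = φ x * B) (hBd : X ^ (c - a) ∣ B) (δ : ℕ → K →ₗ[F] K)
    (h₁ : ∀ i j a b, δ (i + j) (a * b) = a * δ j b + b * δ i a) :
    coeff c (ev1 (mkDer δ h₁) ((form3 F h).val K⟦X⟧ φ)) =
      coeff a (φ x) * δ (c - a) (coeff (c - a) B) := by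
  have hφx : φ x ≠ 0 := by
    intro h0; rw [h0, map_zero] at hx0; exact hx0 rfl
  have hy : φ y = φ x * (B * B) := by
    apply mul_left_cancel₀ hφx
    rw [← map_mul, h, map_mul, hB]; ring
  have hfac : SFac (mat (φ x) (φ y) (φ z) (φ z)) (φ x) ![1, B] := by
    intro i j
    fin_cases i <;> fin_cases j <;> simp [mat, hy, hB]
  rw [form3_val h φ hfac, wr_one, map_smul, ev1_one]
  simp only [Derivation.liftKaehlerDifferential_comp_D, smul_eq_mul]
  have hsum : c = a + (c - a) := by omega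
  have d2 := X_pow_dvd_mkDer hBd δ h₁
  conv_lhs => rw [hsum]
  rw [coeff_mul_lead hx d2, coeff_mkDer]

theorem arc3 (φ : R →ₐ[F] K⟦X⟧) (e : ℕ) (hφ : ConstMod k φ e) {x y z : R}
    (h : x * y = z * z) {a c : ℕ} (hac : a ≤ c) (hlt : c < 2 * e)
    (hx : X ^ a ∣ φ x) (hz : X ^ c ∣ φ z)
    (hind : AlgebraicIndependent k ![coeff a (φ x), coeff c (φ z)]) :
    ¬ Function.Surjective (toValForm F R 1) := by
  intro hsurj
  have : CharZero K := charZero_of_injective_algebraMap (algebraMap k K).injective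
  obtain ⟨η, hη⟩ := hsurj (form3 F h)
  have hpull : pull φ 1 η = (form3 F h).val K⟦X⟧ φ :=
    congrArg (fun ω : ValForm F R 1 => ω.val K⟦X⟧ φ) hη
  obtain ⟨D₁, hD₁⟩ := exists_derivation _ hind ![0, coeff a (φ x)]
  obtain ⟨D₃, hD₃⟩ := exists_derivation _ hind ![1, 0]
  have hx0' : coeff a (φ x) ≠ 0 := hind.ne_zero 0
  have a1 : D₁ (coeff a (φ x)) = 0 := hD₁ 0
  have a2 : D₁ (coeff c (φ z)) = coeff a (φ x) := hD₁ 1
  have c1 : D₃ (coeff a (φ x)) = 1 := hD₃ 0
  obtain ⟨B, hB, hBd, hBc⟩ := exists_div hac hx hz hx0'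
  have ha : a ≠ 0 := by
    rintro rfl
    exact order_ne_zero φ (by omega) hφ D₃ c1
  have hId := T1_identity φ hφ hlt D₁ η
  rw [hpull] at hId
  have tE : coeff c (ev1 (Eu F K) ((form3 F h).val K⟦X⟧ φ)) =
      coeff a (φ x) * (((c - a : ℕ) : K) * coeff (c - a) B) := by
    refine (T_form3 φ h hac hx hx0' hB hBd _ _).trans ?_
    change _ * ((c - a) • coeff (c - a) B) = _
    rw [nsmul_eq_mul]
  have tD : coeff c (ev1 (Dt F D₁) ((form3 F h).val K⟦X⟧ φ)) =
      coeff a (φ x) * D₁ (coeff (c - a) B) :=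
    T_form3 φ h hac hx hx0' hB hBd _ _
  have p4 : D₁ (coeff (c - a) B) = 1 := by
    rw [hBc, Derivation.leibniz_div, a1, a2]
    simp only [smul_eq_mul, mul_zero, sub_zero]
    field_simp
  rw [tE, tD] at hId
  simp only [Derivation.leibniz, Derivation.map_natCast, a1, p4, smul_eq_mul, mul_zero, mul_one,
    add_zero] at hId
  rw [Nat.cast_sub hac] at hId
  have h2 : (a : K) * coeff a (φ x) = 0 := by linear_combination -hId
  exact mul_ne_zero (Nat.cast_ne_zero.mpr ha) hx0' h2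

end

end CdhForms
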