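import Pool.Agent.Work.MP_fc775b_ag.ArcB

/-!
Generic determinantal varieties.
-/

open scoped PowerSeries
open PowerSeries

namespace CdhForms

universe u

noncomputable section

/-- The ideal of the `t × t` minors of the generic `m × n` matrix. -/
def minorsIdeal (k : Type u) [Field k] (m n t : ℕ) : Ideal (MvPolynomial (Fin m × Fin n) k) :=
  Ideal.span {p | ∃ (f : Fin t → Fin m) (g : Fin t → Fin n),
    p = Matrix.det (Matrix.of fun i j => MvPolynomial.X (f i, g j))}

/-- The coordinate ring of the variety of the `m × n` matrices of rank `< t`. -/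
abbrev DetRing (k : Type u) [Field k] (m n t : ℕ) : Type u :=
  MvPolynomial (Fin m × Fin n) k ⧸ minorsIdeal k m n t

/-- The generic matrix of rank `< t`. -/
def genMat (k : Type u) [Field k] (m n t : ℕ) : Matrix (Fin m) (Fin n) (DetRing k m n t) :=
  Matrix.of fun i j => Ideal.Quotient.mk _ (MvPolynomial.X (i, j))

/-- The minor of the first `r` rows and columns. -/
def corner (k : Type u) [Field k] (m n t r : ℕ) (hm : r ≤ m) (hn : r ≤ n) : DetRing k m n t :=
  Matrix.det ((genMat k m n t).submatrix (Fin.castLE hm) (Fin.castLE hn))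

theorem minor_eq_zero (k : Type u) [Field k] (m n t : ℕ) (f : Fin t → Fin m) (g : Fin t → Fin n) :
    Matrix.det ((genMat k m n t).submatrix f g) = 0 := by
  have h : Matrix.det ((genMat k m n t).submatrix f g) =
      Ideal.Quotient.mk (minorsIdeal k m n t)
        (Matrix.det (Matrix.of fun i j => MvPolynomial.X (f i, g j))) := by
    rw [RingHom.map_det]
    rfl
  rw [h, Ideal.Quotient.eq_zero_iff_mem]
  exact Ideal.subset_span ⟨f, g, rfl⟩

/-- Schur complement relation for a matrix all of whose `(r + 2) × (r + 2)` minors vanish. -/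
theorem schur_rel {S : Type u} [CommRing S] {r m n : ℕ} (M : Matrix (Fin m) (Fin n) S)
    (hm : r + 2 ≤ m) (hn : r + 2 ≤ n)
    (h0 : Matrix.det (M.submatrix (Fin.castLE hm) (Fin.castLE hn)) = 0)
    (f : Fin r → Fin m) (g : Fin r → Fin n) (hf : ∀ i, (f i : ℕ) = i) (hg : ∀ i, (g i : ℕ) = i)
    (hu : IsUnit (M.submatrix f g).det) (s : Fin 2 → Fin m) (q : Fin 2 → Fin n)
    (hs : ∀ i, (s i : ℕ) = r + i) (hq : ∀ i, (q i : ℕ) = r + i)
    (C : Matrix (Fin 2) (Fin 2) S)
    (hC : C = M.submatrix s q - M.submatrix s g * (M.submatrix f g)⁻¹ * M.submatrix f q) :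
    C 0 0 * C 1 1 = C 0 1 * C 1 0 := by
  have h1 : (M.submatrix (Fin.castLE hm) (Fin.castLE hn)).submatrix
      (finSumFinEquiv : Fin r ⊕ Fin 2 ≃ Fin (r + 2))
      (finSumFinEquiv : Fin r ⊕ Fin 2 ≃ Fin (r + 2)) =
      Matrix.fromBlocks (M.submatrix f g) (M.submatrix f q) (M.submatrix s g)
        (M.submatrix s q) := by
    have c1 : ∀ i : Fin r, Fin.castLE hm (finSumFinEquiv (Sum.inl i)) = f i := fun i => by
      ext; simp [hf]
    have c2 : ∀ i : Fin 2, Fin.castLE hm (finSumFinEquiv (Sum.inr i)) = s i := fun i => by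
      ext; simp [hs]
    have c3 : ∀ i : Fin r, Fin.castLE hn (finSumFinEquiv (Sum.inl i)) = g i := fun i => by
      ext; simp [hg]
    have c4 : ∀ i : Fin 2, Fin.castLE hn (finSumFinEquiv (Sum.inr i)) = q i := fun i => by
      ext; simp [hq]
    ext i j
    rcases i with i | i <;> rcases j with j | j <;>
      simp only [Matrix.submatrix_apply, Matrix.fromBlocks_apply₁₁, Matrix.fromBlocks_apply₁₂,
        Matrix.fromBlocks_apply₂₁, Matrix.fromBlocks_apply₂₂, c1, c2, c3, c4]
  have h2 := Matrix.det_submatrix_equiv_self (finSumFinEquiv : Fin r ⊕ Fin 2 ≃ Fin (r + 2))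
    (M.submatrix (Fin.castLE hm) (Fin.castLE hn))
  rw [h0, h1] at h2
  let := Matrix.invertibleOfIsUnitDet (M.submatrix f g) hu
  rw [Matrix.det_fromBlocks₁₁, Matrix.invOf_eq_nonsing_inv, ← hC] at h2
  have h3 : Matrix.det C = 0 := (hu.mul_right_eq_zero).mp h2
  rw [Matrix.det_fin_two] at h3
  linear_combination h3

end

end CdhForms
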