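import Pool.Agent.Work.MP_fc775b_ag.Det

/-!
The arc through a matrix of rank `r` in the variety of the matrices of rank `≤ r + 1`.
-/

open scoped PowerSeries
open PowerSeries

namespace CdhForms

universe u

noncomputable section

section arcmat

variable {K : Type u} [Field K] (r m n : ℕ) (a b : K)

/-- First factor. -/
def facP : Matrix (Fin m) (Fin (r + 1)) K⟦X⟧ := Matrix.of fun i l =>
  if (l : ℕ) < r then (if (i : ℕ) = l then 1 else 0) else
    (if (i : ℕ) = r then X else if (i : ℕ) = r + 1 then X * C b else 0)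

/-- Second factor. -/
def facQ : Matrix (Fin (r + 1)) (Fin n) K⟦X⟧ := Matrix.of fun l j =>
  if (l : ℕ) < r then (if (j : ℕ) = l then 1 else 0) else
    (if (j : ℕ) = r then 1 else if (j : ℕ) = r + 1 then C a else 0)

/-- The arc of matrices. -/
def arcMat : Matrix (Fin m) (Fin n) K⟦X⟧ := facP r m b * facQ r n a

theorem arcMat_apply (i : Fin m) (j : Fin n) : arcMat r m n a b i j =
    (∑ l : Fin r, (if (i : ℕ) = l then 1 else 0) * (if (j : ℕ) = l then 1 else 0)) +
    (if (i : ℕ) = r then X else if (i : ℕ) = r + 1 then X * C b else 0) *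
      (if (j : ℕ) = r then 1 else if (j : ℕ) = r + 1 then C a else 0) := by
  rw [arcMat, Matrix.mul_apply, Fin.sum_univ_castSucc]
  congr 1
  · refine Finset.sum_congr rfl fun l _ => ?_
    simp [facP, facQ]
  · simp [facP, facQ]

theorem arcMat_minor (f : Fin (r + 2) → Fin m) (g : Fin (r + 2) → Fin n) :
    Matrix.det ((arcMat r m n a b).submatrix f g) = 0 := by
  by_contra h
  have h1 := Matrix.rank_of_det_ne_zero h
  have h2 : (arcMat r m n a b).submatrix f g =
      (facP r m b).submatrix f id * (facQ r n a).submatrix id g := by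
    rw [arcMat, Matrix.submatrix_mul _ _ f id g Function.bijective_id]
  rw [h2] at h1
  have h3 := Matrix.rank_mul_le_left ((facP r m b).submatrix f id) ((facQ r n a).submatrix id g)
  have h4 := Matrix.rank_le_card_width ((facP r m b).submatrix f id)
  simp only [Fintype.card_fin] at h1 h4
  omega

theorem constantCoeff_arcMat (i : Fin m) (j : Fin n) :
    constantCoeff (arcMat r m n a b i j) =
      ∑ l : Fin r, (if (i : ℕ) = l then 1 else 0) * (if (j : ℕ) = l then 1 else 0) := by
  rw [arcMat_apply, map_add, map_sum, map_mul]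
  have h1 : constantCoeff (R := K)
      (if (i : ℕ) = r then X else if (i : ℕ) = r + 1 then X * C b else 0) = 0 := by
    split_ifs <;> simp
  rw [h1, zero_mul, add_zero]
  refine Finset.sum_congr rfl fun l _ => ?_
  split_ifs <;> simp

theorem arcMat_corner {i : Fin m} {j : Fin n} (hi : (i : ℕ) < r) :
    arcMat r m n a b i j = if (i : ℕ) = j then 1 else 0 := by
  rw [arcMat_apply, if_neg hi.ne, if_neg (by omega), zero_mul, add_zero,
    Finset.sum_eq_single ⟨i, hi⟩]
  · simp [eq_comm]
  · intro l _ hl
    rw [if_neg, zero_mul]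
    intro h
    apply hl
    ext
    simp [h]
  · simp

theorem arcMat_left {i : Fin m} {j : Fin n} (hi : r ≤ (i : ℕ)) (hj : (j : ℕ) < r) :
    arcMat r m n a b i j = 0 := by
  rw [arcMat_apply, if_neg hj.ne, if_neg (by omega : ¬ (j : ℕ) = r + 1), mul_zero, add_zero]
  refine Finset.sum_eq_zero fun l _ => ?_
  rw [if_neg (by omega), zero_mul]

theorem arcMat_end {i : Fin m} {j : Fin n} (hi : r ≤ (i : ℕ)) :
    arcMat r m n a b i j =
    (if (i : ℕ) = r then X else if (i : ℕ) = r + 1 then X * C b else 0) *
      (if (j : ℕ) = r then 1 else if (j : ℕ) = r + 1 then C a else 0) := by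
  rw [arcMat_apply, add_eq_right]
  refine Finset.sum_eq_zero fun l _ => ?_
  rw [if_neg (by omega), zero_mul]

end arcmat

section

variable (k : Type u) [Field k] {r m n : ℕ}

/-- The homomorphism given by the arc of matrices. -/
def detArc0 (r m n : ℕ) {K : Type u} [Field K] [Algebra k K] (a b : K) :
    MvPolynomial (Fin m × Fin n) k →ₐ[k] K⟦X⟧ :=
  MvPolynomial.aeval fun ij => arcMat r m n a b ij.1 ij.2

theorem detArc0_minors {K : Type u} [Field K] [Algebra k K] (a b : K)
    (p : MvPolynomial (Fin m × Fin n) k) (hp : p ∈ minorsIdeal k m n (r + 2)) :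
    detArc0 k r m n a b p = 0 := by
  have h : minorsIdeal k m n (r + 2) ≤ RingHom.ker (detArc0 k r m n a b) := by
    refine Ideal.span_le.mpr ?_
    rintro _ ⟨f, g, rfl⟩
    rw [SetLike.mem_coe, RingHom.mem_ker, AlgHom.map_det]
    rw [← arcMat_minor r m n a b f g]
    congr 1
    ext i j
    simp [detArc0]
  exact h hp

/-- The homomorphism on the coordinate ring. -/
def detArc1 (r m n : ℕ) {K : Type u} [Field K] [Algebra k K] (a b : K) :
    DetRing k m n (r + 2) →ₐ[k] K⟦X⟧ :=
  Ideal.Quotient.liftₐ _ (detArc0 k r m n a b) (detArc0_minors k a b)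

theorem detArc1_genMat {K : Type u} [Field K] [Algebra k K] (a b : K) (i : Fin m) (j : Fin n) :
    detArc1 k r m n a b (genMat k m n (r + 2) i j) = arcMat r m n a b i j := by
  change detArc0 k r m n a b (MvPolynomial.X (i, j)) = _
  simp [detArc0]

theorem detArc1_corner {K : Type u} [Field K] [Algebra k K] (a b : K) (hm : r ≤ m) (hn : r ≤ n) :
    detArc1 k r m n a b (corner k m n (r + 2) r hm hn) = 1 := by
  rw [corner, AlgHom.map_det, ← Matrix.det_one (n := Fin r)]
  congr 1
  refine Matrix.ext fun i j => ?_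
  change detArc1 k r m n a b (genMat k m n (r + 2) _ _) = _
  rw [detArc1_genMat, arcMat_corner r m n a b (by simp), Matrix.one_apply]
  simp [Fin.ext_iff]

theorem detArc1_const {K : Type u} [Field K] [Algebra k K] (a b : K) (x : DetRing k m n (r + 2)) :
    ∃ c : k, (X : K⟦X⟧) ∣ detArc1 k r m n a b x - C (algebraMap k K c) := by
  obtain ⟨p, rfl⟩ := Ideal.Quotient.mk_surjective x
  change ∃ c : k, (X : K⟦X⟧) ∣ detArc0 k r m n a b p - C (algebraMap k K c)
  have h : ∃ c : k, constantCoeff (detArc0 k r m n a b p) = algebraMap k K c := by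
    induction p using MvPolynomial.induction_on with
    | C c =>
      refine ⟨c, ?_⟩
      rw [← MvPolynomial.algebraMap_eq, AlgHom.commutes, PowerSeries.algebraMap_apply,
        constantCoeff_C]
    | add p q hp hq =>
      obtain ⟨c, hc⟩ := hp
      obtain ⟨d, hd⟩ := hq
      exact ⟨c + d, by rw [map_add, map_add, map_add, hc, hd]⟩
    | mul_X p ij hp =>
      obtain ⟨c, hc⟩ := hp
      refine ⟨c * ∑ l : Fin r, (if (ij.1 : ℕ) = l then 1 else 0) *
        (if (ij.2 : ℕ) = l then 1 else 0), ?_⟩
      rw [map_mul, map_mul, map_mul, hc]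
      congr 1
      rw [map_sum]
      have h1 : detArc0 k r m n a b (MvPolynomial.X ij) = arcMat r m n a b ij.1 ij.2 := by
        simp [detArc0]
      rw [h1, constantCoeff_arcMat]
      refine Finset.sum_congr rfl fun l _ => ?_
      split_ifs <;> simp
  obtain ⟨c, hc⟩ := h
  refine ⟨c, ?_⟩
  rw [X_dvd_iff, map_sub, hc]
  simp

end

end

end CdhForms
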