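import Pool.Agent.Work.MP_fc775b_ag.DetArc

/-!
Generic determinantal varieties: the main theorem.
-/

open scoped PowerSeries
open PowerSeries

namespace CdhForms

universe u

noncomputable section

/-- The principal open subset of the variety of the `m × n` matrices of rank `≤ r + 1` where the
first `r × r` minor does not vanish. -/
abbrev DetOpen (k : Type u) [Field k] (r m n : ℕ) (hm : r ≤ m) (hn : r ≤ n) : Type u :=
  Localization.Away (corner k m n (r + 2) r hm hn)

section
variable (k : Type u) [Field k] {r m n : ℕ} (hm : r ≤ m) (hn : r ≤ n)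

/-- The arc. -/
def detArc2 {K : Type u} [Field K] [Algebra k K] (a b : K) : DetOpen k r m n hm hn →ₐ[k] K⟦X⟧ :=
  IsLocalization.liftAlgHom (M := Submonoid.powers (corner k m n (r + 2) r hm hn))
    (f := detArc1 k r m n a b) (by
      rintro ⟨_, j, rfl⟩
      change IsUnit (detArc1 k r m n a b (_ ^ j))
      rw [map_pow, detArc1_corner, one_pow]
      exact isUnit_one)

theorem detArc2_algebraMap {K : Type u} [Field K] [Algebra k K] (a b : K)
    (x : DetRing k m n (r + 2)) :
    detArc2 k hm hn a b (algebraMap _ (DetOpen k r m n hm hn) x) = detArc1 k r m n a b x := by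
  rw [detArc2, IsLocalization.liftAlgHom_apply]
  exact IsLocalization.lift_eq _ _

theorem detArc2_const {K : Type u} [Field K] [Algebra k K] (a b : K) (x : DetOpen k r m n hm hn) :
    ∃ c : k, (X : K⟦X⟧) ^ 1 ∣ detArc2 k hm hn a b x - C (algebraMap k K c) := by
  obtain ⟨⟨y, _, j, rfl⟩, hy⟩ := IsLocalization.surj
    (Submonoid.powers (corner k m n (r + 2) r hm hn)) x
  obtain ⟨c, hc⟩ := detArc1_const k a b y
  refine ⟨c, ?_⟩
  have h1 := congrArg (detArc2 k hm hn a b) hy
  simp only [map_mul, map_pow, detArc2_algebraMap, detArc1_corner, one_pow, mul_one] at h1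
  rw [h1, pow_one]
  exact hc

end

theorem det_not_surjective {F k : Type u} [CommRing F] [Field k] [CharZero k] [Algebra F k]
    {r m n : ℕ} (hm : r + 2 ≤ m) (hn : r + 2 ≤ n) :
    ¬ Function.Surjective (toValForm F (DetOpen k r m n (Nat.le_of_add_right_le hm) (Nat.le_of_add_right_le hn)) 2) := by
  classical
  let K := FractionRing (MvPolynomial (Fin 2) k)
  have : IsScalarTower F k K := inferInstance
  let a : K := algebraMap (MvPolynomial (Fin 2) k) K (MvPolynomial.X 0)
  let b : K := algebraMap (MvPolynomial (Fin 2) k) K (MvPolynomial.X 1)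
  have hab : AlgebraicIndependent k ![a, b] := by
    have h1 : AlgebraicIndependent k (fun i : Fin 2 => (MvPolynomial.X i : MvPolynomial (Fin 2) k)) :=
      MvPolynomial.algebraicIndependent_X _ _
    have h2 := h1.map' (f := IsScalarTower.toAlgHom k (MvPolynomial (Fin 2) k) K)
      (IsFractionRing.injective (MvPolynomial (Fin 2) k) K)
    have h3 : (IsScalarTower.toAlgHom k (MvPolynomial (Fin 2) k) K) ∘
        (fun i : Fin 2 => (MvPolynomial.X i : MvPolynomial (Fin 2) k)) = ![a, b] := by
      funext i
      fin_cases i <;> rfl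
    rwa [h3] at h2
  let φ : DetOpen k r m n (Nat.le_of_add_right_le hm) (Nat.le_of_add_right_le hn) →ₐ[F] K⟦X⟧ := (detArc2 k (Nat.le_of_add_right_le hm) (Nat.le_of_add_right_le hn) a b).restrictScalars F
  have hφ : ConstMod k φ 1 := fun x => detArc2_const k (Nat.le_of_add_right_le hm) (Nat.le_of_add_right_le hn) a b x
  -- the matrix and its Schur complement
  let M : Matrix (Fin m) (Fin n) (DetOpen k r m n (Nat.le_of_add_right_le hm) (Nat.le_of_add_right_le hn)) :=
    (genMat k m n (r + 2)).map (algebraMap _ (DetOpen k r m n (Nat.le_of_add_right_le hm) (Nat.le_of_add_right_le hn)))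
  have hφM : ∀ i j, φ (M i j) = arcMat r m n a b i j := by
    intro i j
    change detArc2 k (Nat.le_of_add_right_le hm) (Nat.le_of_add_right_le hn) a b (algebraMap _ (DetOpen k r m n (Nat.le_of_add_right_le hm) (Nat.le_of_add_right_le hn)) (genMat k m n (r + 2) i j)) = _
    rw [detArc2_algebraMap, detArc1_genMat]
  let f : Fin r → Fin m := Fin.castLE (by omega)
  let g : Fin r → Fin n := Fin.castLE (by omega)
  let s : Fin 2 → Fin m := fun i => ⟨r + i, by omega⟩
  let q : Fin 2 → Fin n := fun i => ⟨r + i, by omega⟩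
  have hu : IsUnit (M.submatrix f g).det := by
    have h1 : (M.submatrix f g).det =
        algebraMap _ (DetOpen k r m n (Nat.le_of_add_right_le hm) (Nat.le_of_add_right_le hn)) (corner k m n (r + 2) r (Nat.le_of_add_right_le hm) (Nat.le_of_add_right_le hn)) := by
      exact (RingHom.map_det (algebraMap (DetRing k m n (r + 2)) (DetOpen k r m n
        (Nat.le_of_add_right_le hm) (Nat.le_of_add_right_le hn)))
        ((genMat k m n (r + 2)).submatrix f g)).symm
    rw [h1]
    exact IsLocalization.Away.algebraMap_isUnit _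
  have h0 : Matrix.det (M.submatrix (Fin.castLE hm) (Fin.castLE hn)) = 0 := by
    have h1 : M.submatrix (Fin.castLE hm) (Fin.castLE hn) =
        (algebraMap _ (DetOpen k r m n (Nat.le_of_add_right_le hm) (Nat.le_of_add_right_le hn))).mapMatrix
          ((genMat k m n (r + 2)).submatrix (Fin.castLE hm) (Fin.castLE hn)) := rfl
    rw [h1, ← RingHom.map_det, minor_eq_zero, map_zero]
  let D : Matrix (Fin 2) (Fin 2) (DetOpen k r m n (Nat.le_of_add_right_le hm) (Nat.le_of_add_right_le hn)) :=
    M.submatrix s q - M.submatrix s g * (M.submatrix f g)⁻¹ * M.submatrix f q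
  have hrel := schur_rel M hm hn h0 f g (fun i => rfl) (fun i => rfl) hu s q (fun i => rfl)
    (fun i => rfl) D rfl
  have hφD : ∀ i j, φ (D i j) = arcMat r m n a b (s i) (q j) := by
    intro i j
    have h1 : D i j = M (s i) (q j) -
        ∑ l, M (s i) (g l) * ((M.submatrix f g)⁻¹ * M.submatrix f q) l j := by
      simp only [D, Matrix.sub_apply, Matrix.mul_assoc]
      rfl
    rw [h1, map_sub, hφM, map_sum, Finset.sum_eq_zero, sub_zero]
    intro l _
    rw [map_mul, hφM, arcMat_left r m n a b (by simp [s]) (by simp [g]), zero_mul]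
  have e00 : φ (D 0 0) = X := by
    rw [hφD, arcMat_end r m n a b (by simp [s])]
    simp [s, q]
  have e01 : φ (D 0 1) = X * C a := by
    rw [hφD, arcMat_end r m n a b (by simp [s])]
    simp [s, q]
  have e10 : φ (D 1 0) = X * C b := by
    rw [hφD, arcMat_end r m n a b (by simp [s])]
    simp [s, q]
  refine arc4' φ 1 hφ hrel (le_refl 1) (le_refl 1) (by norm_num) ?_ ?_ ?_ ?_ ?_
  · rw [e00, pow_one]
  · rw [e01, pow_one]; exact dvd_mul_right _ _
  · rw [e10, pow_one]; exact dvd_mul_right _ _
  · rw [e00]; simp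
  · rw [e00, e01, e10]
    simpa using hab

end

end CdhForms
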