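import Mathlib

/-!
Kaehler forms, their functoriality, and families of forms on valuation rings.
-/

open scoped TensorProduct

namespace CdhForms

universe u

noncomputable section

/-- The module of Kaehler `p`-forms of `S` over `F`. -/
abbrev Form (F S : Type u) [CommRing F] [CommRing S] [Algebra F S] (p : ℕ) : Type u :=
  ⋀[S]^p Ω[S⁄F]

variable {F : Type u} [CommRing F]

/-- The additive map `Ω[S⁄F] → Ω[T⁄F]`, `a db ↦ ψ(a) dψ(b)`, induced by an algebra homomorphism
`ψ : S → T`. -/
def pull1 {S T : Type u} [CommRing S] [Algebra F S] [CommRing T] [Algebra F T]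
    (ψ : S →ₐ[F] T) : Ω[S⁄F] →+ Ω[T⁄F] :=
  letI : Algebra S T := ψ.toRingHom.toAlgebra
  haveI : IsScalarTower F S T := IsScalarTower.of_algebraMap_eq' ψ.comp_algebraMap.symm
  (KaehlerDifferential.map F F S T).toAddMonoidHom

/-- Pull back of Kaehler `p`-forms along an algebra homomorphism `ψ : S → T`: the additive map
`a db₁ ∧ ... ∧ db_p ↦ ψ(a) dψ(b₁) ∧ ... ∧ dψ(b_p)`. -/
def pull {S T : Type u} [CommRing S] [Algebra F S] [CommRing T] [Algebra F T]
    (ψ : S →ₐ[F] T) (p : ℕ) : Form F S p →+ Form F T p :=
  letI : Algebra S T := ψ.toRingHom.toAlgebra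
  haveI : IsScalarTower F S T := IsScalarTower.of_algebraMap_eq' ψ.comp_algebraMap.symm
  (exteriorPower.alternatingMapLinearEquiv
    { (MultilinearMap.restrictScalars S
        (exteriorPower.ιMulti T p (M := Ω[T⁄F])).toMultilinearMap).compLinearMap
      (fun _ => KaehlerDifferential.map F F S T) with
      map_eq_zero_of_eq' := by
        intro v i j hv hij
        exact (exteriorPower.ιMulti T p (M := Ω[T⁄F])).map_eq_zero_of_eq _ (by simp [hv]) hij
        }).toAddMonoidHom

section
variable {S T : Type u} [CommRing S] [Algebra F S] [CommRing T] [Algebra F T]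
    (ψ : S →ₐ[F] T) {p : ℕ}

theorem pull1_smul (a : S) (v : Ω[S⁄F]) : pull1 ψ (a • v) = ψ a • pull1 ψ v := by
  let : Algebra S T := ψ.toRingHom.toAlgebra
  have : IsScalarTower F S T := IsScalarTower.of_algebraMap_eq' ψ.comp_algebraMap.symm
  refine ((KaehlerDifferential.map F F S T).map_smul _ _).trans ?_
  rw [algebra_compatible_smul T a]
  rfl

theorem pull1_D (b : S) :
    pull1 ψ (KaehlerDifferential.D F S b) = KaehlerDifferential.D F T (ψ b) := by
  let : Algebra S T := ψ.toRingHom.toAlgebra
  have : IsScalarTower F S T := IsScalarTower.of_algebraMap_eq' ψ.comp_algebraMap.symm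
  exact KaehlerDifferential.map_D F F S T b

/-- Pull back of Kaehler forms is semilinear. -/
theorem pull_smul (a : S) (η : Form F S p) : pull ψ p (a • η) = ψ a • pull ψ p η := by
  let : Algebra S T := ψ.toRingHom.toAlgebra
  have : IsScalarTower F S T := IsScalarTower.of_algebraMap_eq' ψ.comp_algebraMap.symm
  exact LinearMap.map_smul (exteriorPower.alternatingMapLinearEquiv
    { (MultilinearMap.restrictScalars S
        (exteriorPower.ιMulti T p (M := Ω[T⁄F])).toMultilinearMap).compLinearMap
      (fun _ => KaehlerDifferential.map F F S T) with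
      map_eq_zero_of_eq' := by
        intro v i j hv hij
        exact (exteriorPower.ιMulti T p (M := Ω[T⁄F])).map_eq_zero_of_eq _ (by simp [hv]) hij
        }) a η

theorem pull_ιMulti (v : Fin p → Ω[S⁄F]) :
    pull ψ p (exteriorPower.ιMulti S p v) =
      exteriorPower.ιMulti T p (fun i => pull1 ψ (v i)) := by
  let : Algebra S T := ψ.toRingHom.toAlgebra
  have : IsScalarTower F S T := IsScalarTower.of_algebraMap_eq' ψ.comp_algebraMap.symm
  exact exteriorPower.alternatingMapLinearEquiv_apply_ιMulti _ _

end

/-- Every `p`-form is a sum of forms `a db₁ ∧ ... ∧ db_p`. -/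
theorem form_induction {S : Type u} [CommRing S] [Algebra F S] {p : ℕ}
    {P : Form F S p → Prop} (h0 : P 0) (hadd : ∀ a b, P a → P b → P (a + b))
    (hgen : ∀ (c : S) (b : Fin p → S),
      P (c • exteriorPower.ιMulti S p (fun i => KaehlerDifferential.D F S (b i)))) :
    ∀ η, P η := by
  intro η
  have hs := exteriorPower.ιMulti_span_of_span (R := S) (n := p) (M := Ω[S⁄F])
    (s := Set.range (KaehlerDifferential.D F S)) (KaehlerDifferential.span_range_derivation F S)
  have hη : η ∈ Submodule.span S (exteriorPower.ιMulti S p '' {a : Fin p → Ω[S⁄F] |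
      Set.range a ⊆ Set.range (KaehlerDifferential.D F S)}) := by
    rw [hs]; trivial
  refine Submodule.closure_induction (p := fun x _ => P x) h0 (fun x y _ _ => hadd x y) ?_ hη
  rintro c _ ⟨v, hv, rfl⟩
  have hb : ∀ i, ∃ b, KaehlerDifferential.D F S b = v i := fun i => hv ⟨i, rfl⟩
  choose b hb using hb
  have : v = fun i => KaehlerDifferential.D F S (b i) := funext fun i => (hb i).symm
  rw [this]
  exact hgen c b

theorem pull_gen {S T : Type u} [CommRing S] [Algebra F S] [CommRing T] [Algebra F T]
    (ψ : S →ₐ[F] T) {p : ℕ} (c : S) (b : Fin p → S) :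
    pull ψ p (c • exteriorPower.ιMulti S p (fun i => KaehlerDifferential.D F S (b i))) =
      ψ c • exteriorPower.ιMulti T p (fun i => KaehlerDifferential.D F T (ψ (b i))) := by
  rw [pull_smul, pull_ιMulti]
  simp only [pull1_D]

theorem pull_pull {S T U : Type u} [CommRing S] [Algebra F S] [CommRing T] [Algebra F T]
    [CommRing U] [Algebra F U] (χ : T →ₐ[F] U) (ψ : S →ₐ[F] T) (p : ℕ) (η : Form F S p) :
    pull χ p (pull ψ p η) = pull (χ.comp ψ) p η := by
  induction η using form_induction with
  | h0 => simp
  | hadd a b ha hb => simp [ha, hb]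
  | hgen c b => simp only [pull_gen, AlgHom.comp_apply]

/-- Families of `p`-forms on valuation rings: such a family assigns to every valuation ring `O`
(an `F`-algebra) and every `F`-algebra homomorphism `φ : R → O` a Kaehler `p`-form of `O` over
`F`, compatibly with all `F`-algebra homomorphisms `O → O'` of valuation rings.  For `F` a field
of characteristic zero and `R` a finitely generated `F`-algebra these families are the global
sections over `Spec R` of the cdh-sheaf (or h-sheaf) of `p`-forms (Huber, Kelly), that is
`H⁰` of the `p`-th graded piece of the Du Bois complex. -/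
@[ext]
structure ValForm (F R : Type u) [CommRing F] [CommRing R] [Algebra F R] (p : ℕ) where
  val : ∀ (O : Type u) [CommRing O] [IsDomain O] [ValuationRing O] [Algebra F O],
    (R →ₐ[F] O) → Form F O p
  compat : ∀ (O O' : Type u) [CommRing O] [IsDomain O] [ValuationRing O] [Algebra F O]
    [CommRing O'] [IsDomain O'] [ValuationRing O'] [Algebra F O']
    (φ : R →ₐ[F] O) (ψ : O →ₐ[F] O'), pull ψ p (val O φ) = val O' (ψ.comp φ)

/-- The natural map from Kaehler forms to families of forms on valuation rings. -/
def toValForm (F R : Type u) [CommRing F] [CommRing R] [Algebra F R] (p : ℕ)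
    (η : Form F R p) : ValForm F R p where
  val := fun _ _ _ _ _ φ => pull φ p η
  compat := fun _ _ _ _ _ _ _ _ _ _ φ ψ => pull_pull ψ φ p η

end

end CdhForms
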