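import Pool.Agent.Work.MP_fc775b_ag.Short
import Pool.Agent.Work.MP_fc775b_ag.Graded

/-!
Arcs, leading terms and graded rings with small constants.
-/

namespace ValForms

universe u

/-- An arc in `Spec R` whose values are constants from `k` modulo `X ^ e`: a field `K` containing
`k` and an `F`-algebra homomorphism `φ : R → K⟦X⟧` such that every `φ r` is congruent modulo
`X ^ e` to a constant from `k`. -/
structure Arc (F k R : Type u) [CommRing F] [Field k] [CommRing R] [Algebra F k] [Algebra F R]
    (e : ℕ) where
  /-- the field -/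
  K : Type u
  [field : Field K]
  [algebraF : Algebra F K]
  [algebrak : Algebra k K]
  [tower : IsScalarTower F k K]
  /-- the homomorphism -/
  φ : R →ₐ[F] PowerSeries K
  const : ∀ r : R, ∃ c : k, PowerSeries.X ^ e ∣ φ r - PowerSeries.C (algebraMap k K c)

attribute [instance] Arc.field Arc.algebraF Arc.algebrak Arc.tower

/-- `φ r = u X ^ n + (terms of higher order)`. -/
def Arc.Leads {F k R : Type u} [CommRing F] [Field k] [CommRing R] [Algebra F k] [Algebra F R]
    {e : ℕ} (α : Arc F k R e) (r : R) (n : ℕ) (u : α.K) : Prop :=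
  PowerSeries.X ^ n ∣ α.φ r ∧ PowerSeries.coeff n (α.φ r) = u

/-- The homogeneous elements of degree zero are constants and there are none in degrees strictly
between `0` and `e`. -/
def Connected {k R : Type u} [Field k] [CommRing R] [Algebra k R] (𝒜 : ℕ → Submodule k R)
    (e : ℕ) : Prop :=
  (∀ r ∈ 𝒜 0, ∃ c : k, algebraMap k R c = r) ∧ ∀ n, 0 < n → n < e → 𝒜 n = ⊥

end ValForms
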