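import Pool.Agent.Work.MP_fc775b_ag.Forms

/-!
The two families of forms on valuation rings attached to a relation `x y = z w` (a `2`-form) and
to a relation `x y = z²` (a `1`-form).
-/

open scoped TensorProduct

namespace CdhForms

universe u

noncomputable section

variable {F : Type u} [CommRing F]

/-- The `1`-form `s₀ ds₁ - s₁ ds₀`. -/
def wr (F : Type u) {O : Type u} [CommRing F] [CommRing O] [Algebra F O] (s : Fin 2 → O) :
    Ω[O⁄F] :=
  s 0 • KaehlerDifferential.D F O (s 1) - s 1 • KaehlerDifferential.D F O (s 0)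

/-- The wedge product of two `1`-forms. -/
def wedge {O : Type u} [CommRing O] [Algebra F O] (a b : Ω[O⁄F]) : Form F O 2 :=
  exteriorPower.ιMulti O 2 ![a, b]

/-- A `1`-form as an element of the first exterior power. -/
def one {O : Type u} [CommRing O] [Algebra F O] (a : Ω[O⁄F]) : Form F O 1 :=
  exteriorPower.ιMulti O 1 ![a]

section
variable {O : Type u} [CommRing O] [Algebra F O]

theorem wr_smul (c : O) {s s' : Fin 2 → O} (h : ∀ i, s' i = c * s i) :
    wr F s' = c ^ 2 • wr F s := by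
  simp only [wr, h, Derivation.leibniz, smul_sub, smul_add, smul_smul]
  have e1 : c * s 0 * s 1 = c * s 1 * s 0 := by ring
  rw [e1]
  have e2 : c * s 0 * c = c ^ 2 * s 0 := by ring
  have e3 : c * s 1 * c = c ^ 2 * s 1 := by ring
  rw [e2, e3]
  abel

theorem wr_zero {s : Fin 2 → O} (h : ∀ i, s i = 0) : wr F s = 0 := by
  simp [wr, h]

theorem wedge_smul_left (c : O) (a b : Ω[O⁄F]) : wedge (c • a) b = c • wedge a b := by
  have h := (exteriorPower.ιMulti O 2 (M := Ω[O⁄F])).map_update_smul ![a, b] 0 c a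
  have h1 : Function.update ![a, b] 0 (c • a) = ![c • a, b] := by
    funext i; fin_cases i <;> simp
  have h2 : Function.update ![a, b] 0 a = ![a, b] := by
    funext i; fin_cases i <;> simp
  rwa [h1, h2] at h

theorem wedge_smul_right (c : O) (a b : Ω[O⁄F]) : wedge a (c • b) = c • wedge a b := by
  have h := (exteriorPower.ιMulti O 2 (M := Ω[O⁄F])).map_update_smul ![a, b] 1 c b
  have h1 : Function.update ![a, b] 1 (c • b) = ![a, c • b] := by
    funext i; fin_cases i <;> simp
  have h2 : Function.update ![a, b] 1 b = ![a, b] := by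
    funext i; fin_cases i <;> simp
  rwa [h1, h2] at h

theorem wedge_zero_left (b : Ω[O⁄F]) : wedge 0 b = 0 := by
  have := wedge_smul_left (0 : O) 0 b
  simpa using this

theorem wedge_zero_right (b : Ω[O⁄F]) : wedge b 0 = 0 := by
  have := wedge_smul_right (0 : O) b 0
  simpa using this

theorem one_smul' (c : O) (a : Ω[O⁄F]) : one (c • a) = c • one a := by
  have h := (exteriorPower.ιMulti O 1 (M := Ω[O⁄F])).map_update_smul ![a] 0 c a
  have h1 : Function.update ![a] 0 (c • a) = ![c • a] := by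
    funext i; fin_cases i; simp
  have h2 : Function.update ![a] 0 a = ![a] := by
    funext i; fin_cases i; simp
  rwa [h1, h2] at h

theorem one_zero : one (0 : Ω[O⁄F]) = 0 := by
  have := one_smul' (0 : O) (0 : Ω[O⁄F])
  simpa using this

variable {T : Type u} [CommRing T] [Algebra F T]

theorem pull1_wr (ψ : O →ₐ[F] T) (s : Fin 2 → O) :
    pull1 ψ (wr F s) = wr F (fun i => ψ (s i)) := by
  simp only [wr, map_sub, pull1_smul, pull1_D]

theorem pull_wedge (ψ : O →ₐ[F] T) (a b : Ω[O⁄F]) :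
    pull ψ 2 (wedge a b) = wedge (pull1 ψ a) (pull1 ψ b) := by
  rw [wedge, wedge, pull_ιMulti]
  congr 1
  ext i
  fin_cases i <;> rfl

theorem pull_one (ψ : O →ₐ[F] T) (a : Ω[O⁄F]) : pull ψ 1 (one a) = one (pull1 ψ a) := by
  rw [one, one, pull_ιMulti]
  congr 1
  ext i
  fin_cases i; rfl

end

section
variable {O : Type u} [CommRing O] [IsDomain O] [Algebra F O]

/-- `(s, t)` is a factorisation `M i j = s i * t j` of a `2 × 2` matrix. -/
def Fac (M : Fin 2 → Fin 2 → O) (s t : Fin 2 → O) : Prop := ∀ i j, M i j = s i * t j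

theorem Fac.exists [ValuationRing O] (M : Fin 2 → Fin 2 → O)
    (h : M 0 0 * M 1 1 = M 0 1 * M 1 0) : ∃ s t, Fac M s t := by
  by_cases hx : M 0 0 = 0
  · rw [hx, zero_mul, eq_comm, mul_eq_zero] at h
    rcases h with h | h
    · refine ⟨![0, 1], ![M 1 0, M 1 1], fun i j => ?_⟩
      fin_cases i <;> fin_cases j <;> simp [hx, h]
    · refine ⟨![M 0 1, M 1 1], ![0, 1], fun i j => ?_⟩
      fin_cases i <;> fin_cases j <;> simp [hx, h]
  · rcases ValuationRing.dvd_total (M 0 0) (M 0 1) with ⟨c, hc⟩ | ⟨c, hc⟩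
    · have h1 : M 1 1 = M 1 0 * c := by
        apply mul_left_cancel₀ hx
        rw [h, hc]; ring
      refine ⟨![M 0 0, M 1 0], ![1, c], fun i j => ?_⟩
      fin_cases i <;> fin_cases j <;> simp [hc, h1]
    · have hz : M 0 1 ≠ 0 := by
        intro h0; rw [h0, zero_mul] at hc; exact hx hc
      have h1 : M 1 0 = M 1 1 * c := by
        apply mul_left_cancel₀ hz
        rw [← h, hc]; ring
      refine ⟨![M 0 1, M 1 1], ![c, 1], fun i j => ?_⟩
      fin_cases i <;> fin_cases j <;> simp [hc, h1]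

theorem fac_aux {M : Fin 2 → Fin 2 → O} {s t s' t' : Fin 2 → O} (h : Fac M s t)
    (h' : Fac M s' t') {i j : Fin 2} (hi : s i ≠ 0) (hj : t j ≠ 0) {c : O}
    (hc : s' i = c * s i) : (∀ j, t j = c * t' j) ∧ (∀ i, s' i = c * s i) := by
  have h1 : ∀ j, t j = c * t' j := by
    intro j
    apply mul_left_cancel₀ hi
    have := (h i j).symm.trans (h' i j)
    rw [this, hc]; ring
  refine ⟨h1, fun i' => ?_⟩
  have ht : t' j ≠ 0 := by
    intro h0; apply hj; rw [h1 j, h0, mul_zero]
  apply mul_right_cancel₀ ht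
  have := (h i' j).symm.trans (h' i' j)
  rw [← this, h1 j]; ring

omit [IsDomain O] in
theorem fac_form_aux {s t s' t' : Fin 2 → O} {c : O} (h1 : ∀ j, t j = c * t' j)
    (h2 : ∀ i, s' i = c * s i) :
    wedge (wr F s) (wr F t) = wedge (wr F s') (wr F t') := by
  rw [wr_smul c h1, wr_smul c h2, wedge_smul_left, wedge_smul_right]

theorem fac_zero {M : Fin 2 → Fin 2 → O} {s t : Fin 2 → O} (h : Fac M s t)
    (h0 : ∀ i j, M i j = 0) : wedge (wr F s) (wr F t) = 0 := by
  by_cases hs : ∀ i, s i = 0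
  · rw [wr_zero hs, wedge_zero_left]
  · push Not at hs
    obtain ⟨i, hi⟩ := hs
    have ht : ∀ j, t j = 0 := by
      intro j
      have := h i j
      rw [h0, eq_comm, mul_eq_zero] at this
      exact this.resolve_left hi
    rw [wr_zero ht, wedge_zero_right]

/-- The `2`-form `(s₀ds₁ - s₁ds₀) ∧ (t₀dt₁ - t₁dt₀)` does not depend on the factorisation. -/
theorem fac_unique [ValuationRing O] {M : Fin 2 → Fin 2 → O} {s t s' t' : Fin 2 → O}
    (h : Fac M s t) (h' : Fac M s' t') :
    wedge (wr F s) (wr F t) = wedge (wr F s') (wr F t') := by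
  by_cases h0 : ∀ i j, M i j = 0
  · rw [fac_zero h h0, fac_zero h' h0]
  · push Not at h0
    obtain ⟨i, j, hij⟩ := h0
    have e := h i j
    have e' := h' i j
    have hs : s i ≠ 0 := by intro h0; apply hij; rw [e, h0, zero_mul]
    have ht : t j ≠ 0 := by intro h0; apply hij; rw [e, h0, mul_zero]
    have hs' : s' i ≠ 0 := by intro h0; apply hij; rw [e', h0, zero_mul]
    have ht' : t' j ≠ 0 := by intro h0; apply hij; rw [e', h0, mul_zero]
    rcases ValuationRing.dvd_total (s i) (s' i) with ⟨c, hc⟩ | ⟨c, hc⟩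
    · obtain ⟨h1, h2⟩ := fac_aux h h' hs ht (hc.trans (mul_comm _ _))
      exact fac_form_aux h1 h2
    · obtain ⟨h1, h2⟩ := fac_aux h' h hs' ht' (hc.trans (mul_comm _ _))
      exact (fac_form_aux h1 h2).symm

/-- `(c, s)` is a factorisation `M i j = c * s i * s j` of a symmetric `2 × 2` matrix. -/
def SFac (M : Fin 2 → Fin 2 → O) (c : O) (s : Fin 2 → O) : Prop := ∀ i j, M i j = c * (s i * s j)

theorem SFac.exists [ValuationRing O] (M : Fin 2 → Fin 2 → O) (hs : M 1 0 = M 0 1)
    (h : M 0 0 * M 1 1 = M 0 1 * M 0 1) : ∃ c s, SFac M c s := by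
  by_cases hx : M 0 0 = 0
  · rw [hx, zero_mul, eq_comm, mul_self_eq_zero] at h
    refine ⟨M 1 1, ![0, 1], fun i j => ?_⟩
    fin_cases i <;> fin_cases j <;> simp [hx, h, hs]
  · rcases ValuationRing.dvd_total (M 0 0) (M 0 1) with ⟨c, hc⟩ | ⟨c, hc⟩
    · have h1 : M 1 1 = M 0 0 * (c * c) := by
        apply mul_left_cancel₀ hx
        rw [h, hc]; ring
      refine ⟨M 0 0, ![1, c], fun i j => ?_⟩
      fin_cases i <;> fin_cases j <;> simp [hc, h1, hs]
    · have hz : M 0 1 ≠ 0 := by
        intro h0; rw [h0, zero_mul] at hc; exact hx hc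
      have h1 : M 0 1 = M 1 1 * c := by
        apply mul_left_cancel₀ hz
        rw [← h, hc]; ring
      have h2 : M 0 0 = M 1 1 * (c * c) := by rw [hc, h1]; ring
      refine ⟨M 1 1, ![c, 1], fun i j => ?_⟩
      fin_cases i <;> fin_cases j <;> simp [h2, h1, hs]

theorem sfac_aux {M : Fin 2 → Fin 2 → O} {c c' : O} {s s' : Fin 2 → O} (h : SFac M c s)
    (h' : SFac M c' s') {i : Fin 2} (hM : M i i ≠ 0) {u : O}
    (hu : s' i = u * s i) : c = c' * u ^ 2 ∧ (∀ i, s' i = u * s i) := by
  have e := h i i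
  have e' := h' i i
  have hi : s i ≠ 0 := by intro h0; apply hM; rw [e, h0]; simp
  have hi' : s' i ≠ 0 := by intro h0; apply hM; rw [e', h0]; simp
  have hc' : c' ≠ 0 := by intro h0; apply hM; rw [e', h0]; simp
  have hu0 : u ≠ 0 := by intro h0; apply hi'; rw [hu, h0]; simp
  have h1 : c = c' * u ^ 2 := by
    apply mul_right_cancel₀ (mul_ne_zero hi hi)
    rw [← e, e', hu]; ring
  refine ⟨h1, fun j => ?_⟩
  have ej := (h i j).symm.trans (h' i j)
  apply mul_left_cancel₀ (mul_ne_zero hc' (mul_ne_zero hu0 hi))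
  have : c' * (u * s i) * s' j = c' * (s' i * s' j) := by rw [hu]; ring
  rw [this, ← ej, h1]; ring

omit [IsDomain O] in
theorem sfac_form_aux {c c' u : O} {s s' : Fin 2 → O} (h1 : c = c' * u ^ 2)
    (h2 : ∀ i, s' i = u * s i) : c • one (wr F s) = c' • one (wr F s') := by
  rw [wr_smul u h2, one_smul', smul_smul, h1]

theorem sfac_zero {M : Fin 2 → Fin 2 → O} {c : O} {s : Fin 2 → O} (h : SFac M c s)
    (h0 : ∀ i, M i i = 0) : c • one (wr F s) = 0 := by
  by_cases hc : c = 0
  · rw [hc, zero_smul]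
  · have hs : ∀ i, s i = 0 := by
      intro i
      have := h i i
      rw [h0, eq_comm, mul_eq_zero, mul_self_eq_zero] at this
      exact this.resolve_left hc
    rw [wr_zero hs, one_zero, smul_zero]

theorem sfac_unique [ValuationRing O] {M : Fin 2 → Fin 2 → O} {c c' : O} {s s' : Fin 2 → O}
    (h : SFac M c s) (h' : SFac M c' s') : c • one (wr F s) = c' • one (wr F s') := by
  by_cases h0 : ∀ i, M i i = 0
  · rw [sfac_zero h h0, sfac_zero h' h0]
  · push Not at h0
    obtain ⟨i, hi⟩ := h0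
    rcases ValuationRing.dvd_total (s i) (s' i) with ⟨u, hu⟩ | ⟨u, hu⟩
    · obtain ⟨h1, h2⟩ := sfac_aux h h' hi (hu.trans (mul_comm _ _))
      exact sfac_form_aux h1 h2
    · obtain ⟨h1, h2⟩ := sfac_aux h' h hi (hu.trans (mul_comm _ _))
      exact (sfac_form_aux h1 h2).symm

end

section
variable {R : Type u} [CommRing R] [Algebra F R]

/-- The matrix `(φ x, φ z; φ w, φ y)`. -/
def mat {O : Type u} (x y z w : O) : Fin 2 → Fin 2 → O := ![![x, z], ![w, y]]

theorem fac_mat_exists (F : Type u) [CommRing F] {R : Type u} [CommRing R] [Algebra F R]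
    {x y z w : R} (h : x * y = z * w) {O : Type u} [CommRing O]
    [IsDomain O] [ValuationRing O] [Algebra F O] (φ : R →ₐ[F] O) :
    ∃ st : (Fin 2 → O) × (Fin 2 → O), Fac (mat (φ x) (φ y) (φ z) (φ w)) st.1 st.2 := by
  obtain ⟨s, t, h⟩ := Fac.exists (mat (φ x) (φ y) (φ z) (φ w))
    (by simp [mat, ← map_mul, h])
  exact ⟨(s, t), h⟩

theorem sfac_mat_exists (F : Type u) [CommRing F] {R : Type u} [CommRing R] [Algebra F R]
    {x y z : R} (h : x * y = z * z) {O : Type u} [CommRing O]
    [IsDomain O] [ValuationRing O] [Algebra F O] (φ : R →ₐ[F] O) :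
    ∃ cs : O × (Fin 2 → O), SFac (mat (φ x) (φ y) (φ z) (φ z)) cs.1 cs.2 := by
  obtain ⟨c, s, h⟩ := SFac.exists (mat (φ x) (φ y) (φ z) (φ z))
    (by simp [mat]) (by simp [mat, ← map_mul, h])
  exact ⟨(c, s), h⟩

theorem mat_map {O O' : Type u} (ψ : O → O') (x y z w : O) (i j : Fin 2) :
    mat (ψ x) (ψ y) (ψ z) (ψ w) i j = ψ (mat x y z w i j) := by
  fin_cases i <;> fin_cases j <;> rfl

/-- The family of `2`-forms `(s₀ds₁ - s₁ds₀) ∧ (t₀dt₁ - t₁dt₀)` attached to a relation
`x y = z w`, where `x = s₀t₀`, `z = s₀t₁`, `w = s₁t₀`, `y = s₁t₁` in the valuation ring. -/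
def form4 (F : Type u) [CommRing F] {R : Type u} [CommRing R] [Algebra F R] {x y z w : R}
    (h : x * y = z * w) : ValForm F R 2 where
  val := fun _ _ _ _ _ φ =>
    wedge (wr F (fac_mat_exists F h φ).choose.1) (wr F (fac_mat_exists F h φ).choose.2)
  compat := by
    intro O O' _ _ _ _ _ _ _ _ φ ψ
    have h1 := (fac_mat_exists F h φ).choose_spec
    have h2 := (fac_mat_exists F h (ψ.comp φ)).choose_spec
    rw [pull_wedge, pull1_wr, pull1_wr]
    refine fac_unique (M := mat (ψ (φ x)) (ψ (φ y)) (ψ (φ z)) (ψ (φ w))) ?_ h2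
    intro i j
    rw [mat_map ψ, h1 i j, map_mul]

theorem form4_val {x y z w : R} (h : x * y = z * w) {O : Type u} [CommRing O]
    [IsDomain O] [ValuationRing O] [Algebra F O] (φ : R →ₐ[F] O) {s t : Fin 2 → O}
    (hst : Fac (mat (φ x) (φ y) (φ z) (φ w)) s t) :
    (form4 F h).val O φ = wedge (wr F s) (wr F t) :=
  fac_unique (fac_mat_exists F h φ).choose_spec hst

/-- The family of `1`-forms `c (s₀ds₁ - s₁ds₀)` attached to a relation `x y = z²`, where
`x = c s₀²`, `z = c s₀s₁`, `y = c s₁²` in the valuation ring. -/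
def form3 (F : Type u) [CommRing F] {R : Type u} [CommRing R] [Algebra F R] {x y z : R}
    (h : x * y = z * z) : ValForm F R 1 where
  val := fun _ _ _ _ _ φ =>
    (sfac_mat_exists F h φ).choose.1 • one (wr F (sfac_mat_exists F h φ).choose.2)
  compat := by
    intro O O' _ _ _ _ _ _ _ _ φ ψ
    have h1 := (sfac_mat_exists F h φ).choose_spec
    have h2 := (sfac_mat_exists F h (ψ.comp φ)).choose_spec
    rw [pull_smul, pull_one, pull1_wr]
    refine sfac_unique (M := mat (ψ (φ x)) (ψ (φ y)) (ψ (φ z)) (ψ (φ z))) ?_ h2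
    intro i j
    rw [mat_map ψ, h1 i j, map_mul, map_mul]

theorem form3_val {x y z : R} (h : x * y = z * z) {O : Type u} [CommRing O]
    [IsDomain O] [ValuationRing O] [Algebra F O] (φ : R →ₐ[F] O) {c : O} {s : Fin 2 → O}
    (hst : SFac (mat (φ x) (φ y) (φ z) (φ z)) c s) :
    (form3 F h).val O φ = c • one (wr F s) :=
  sfac_unique (sfac_mat_exists F h φ).choose_spec hst

end

end

end CdhForms
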